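import Pool.Agent.H306R2.EPLim
import Pool.Agent.W184.MV

set_option autoImplicit false

/-! The divisor functions `d_k`: Dirichlet series, sums of squares, mean values of Dirichlet polynomials. -/

namespace Pool.Agent.J4H26.EQ

open Finset Filter Topology MeasureTheory Pool.Agent.H306R2 Pool.Agent.W184

/-- the divisor function `d_k`, as a real number -/
noncomputable def dd (k n : ℕ) : ℝ := dv (k : ℝ) n

lemma dd_nonneg (k n : ℕ) : 0 ≤ dd k n := dv_nonneg (Nat.cast_nonneg k) n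

lemma dd_zR (k n : ℕ) : dd k n = (zR ^ k) n := by
  unfold dd; rw [← dA_apply, dA_nat]

lemma dd_eq (k n : ℕ) : dd k n = (((ArithmeticFunction.zeta ^ k : ArithmeticFunction ℕ) n : ℕ) : ℝ) := by
  rw [dd_zR]
  have h : zR ^ k = ((ArithmeticFunction.zeta ^ k : ArithmeticFunction ℕ) : ArithmeticFunction ℝ) := by
    induction k with
    | zero => simp
    | succ k ih =>
      rw [pow_succ, pow_succ, ih, ArithmeticFunction.natCoe_mul]
      rfl
  rw [h, ArithmeticFunction.natCoe_apply]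

lemma dd_le (k n : ℕ) : dd k n ≤ (n : ℝ) ^ k := by
  have h := (PB_zR.pow k) n
  rw [dd_zR]
  refine (le_abs_self _).trans (h.trans (le_of_eq ?_))
  rw [zero_add, mul_one]

lemma dd_zero {k : ℕ} : dd k 0 = 0 := by unfold dd dv; simp

/-- the Dirichlet series of `ζ^k` -/
lemma zpow_hasSum (k : ℕ) {s : ℂ} (hs : 1 < s.re) :
    HasSum (fun n : ℕ => (dd k n : ℂ) * (n : ℂ) ^ (-s)) (riemannZeta s ^ k) := by
  have h := zetaA_hasSum k 1 1 (by
    intro n hn
    rw [ArithmeticFunction.one_apply_ne]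
    rintro rfl
    simp at hn) s hs
  have e : Dp (1 : ArithmeticFunction ℝ) 1 s = 1 := by unfold Dp; simp
  rw [e, mul_one, mul_one] at h
  simpa only [← dd_zR] using h

lemma dd_summable (k : ℕ) : Summable fun n : ℕ => dd k n * ((n : ℝ) ^ 2)⁻¹ := by
  have h := dvJ_summable k (σ := 1) one_pos
  refine h.congr fun n => ?_
  unfold dd
  congr 1
  rw [show (-1 - 1 : ℝ) = -(2:ℕ) by norm_num, Real.rpow_neg (Nat.cast_nonneg n), Real.rpow_natCast]

lemma DS_le (k N : ℕ) {s : ℂ} (hs : 0 ≤ s.re) : ‖DS (dd k) N s‖ ≤ (N : ℝ) ^ (k + 1) := by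
  unfold DS
  refine (norm_sum_le _ _).trans ?_
  calc ∑ n ∈ Icc 1 N, ‖(dd k n : ℂ) * (n : ℂ) ^ (-s)‖ ≤ ∑ n ∈ Icc 1 N, (N:ℝ) ^ k := by
        refine sum_le_sum fun n hn => ?_
        rw [mem_Icc] at hn
        rw [norm_mul, Complex.norm_real, Real.norm_of_nonneg (dd_nonneg k n),
          Complex.norm_natCast_cpow_of_pos (by omega)]
        have h1 : (n:ℝ) ^ (-s).re ≤ 1 :=
          Real.rpow_le_one_of_one_le_of_nonpos (by exact_mod_cast hn.1) (by simpa using hs)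
        have h2 : (n:ℝ) ^ k ≤ (N:ℝ) ^ k := pow_le_pow_left₀ (by positivity) (by exact_mod_cast hn.2) k
        calc dd k n * (n:ℝ) ^ (-s).re ≤ (N:ℝ) ^ k * 1 :=
              mul_le_mul ((dd_le k n).trans h2) h1 (by positivity) (by positivity)
          _ = _ := mul_one _
    _ = _ := by simp [pow_succ]; ring

lemma DS_diff (g : ℕ → ℝ) (N : ℕ) : Differentiable ℂ (DS g N) := by
  unfold DS
  refine Differentiable.fun_sum fun n hn => ?_
  rw [mem_Icc] at hn
  refine (differentiable_const _).mul ?_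
  refine Differentiable.const_cpow (by fun_prop) (Or.inl ?_)
  exact_mod_cast (by omega : n ≠ 0)

/-- `ζ^k` minus its truncation, far to the right -/
theorem zeta_far (k : ℕ) {N : ℕ} (hN : 1 ≤ N) {z : ℂ} (hz : 2 ≤ z.re) :
    ‖riemannZeta z ^ k - DS (dd k) N z‖ * (N:ℝ) ^ z.re ≤
      (N:ℝ) ^ 2 * ∑' n : ℕ, dd k n * ((n : ℝ) ^ 2)⁻¹ := by
  have hN0 : (0:ℝ) < N := by exact_mod_cast hN
  have h1 := zpow_hasSum k (s := z) (by linarith)
  set g : ℕ → ℂ := fun n => if n ∈ Icc 1 N then (dd k n : ℂ) * (n : ℂ) ^ (-z) else 0 with hg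
  have h2 : HasSum g (DS (dd k) N z) := by
    have h : HasSum g (∑ n ∈ Icc 1 N, g n) := hasSum_sum_of_ne_finset_zero (fun n hn => if_neg hn)
    have e : ∑ n ∈ Icc 1 N, g n = DS (dd k) N z := sum_congr rfl fun n hn => if_pos hn
    rwa [e] at h
  have h3 := h1.sub h2
  have h6 : ‖riemannZeta z ^ k - DS (dd k) N z‖ ≤
      ∑' n : ℕ, ((N:ℝ) ^ 2 * (N:ℝ) ^ (-z.re)) * (dd k n * ((n : ℝ) ^ 2)⁻¹) := by
    rw [← h3.tsum_eq]
    refine tsum_of_norm_bounded ((dd_summable k).mul_left _).hasSum fun n => ?_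
    have hd := dd_nonneg k n
    rcases Nat.eq_zero_or_pos n with hn | hn
    · subst hn
      rw [hg]
      simp [dd_zero]
    · have hn0 : (0:ℝ) < n := by exact_mod_cast hn
      by_cases hnN : n ≤ N
      · have : g n = (dd k n : ℂ) * (n : ℂ) ^ (-z) := if_pos (mem_Icc.mpr ⟨hn, hnN⟩)
        rw [this, sub_self, norm_zero]
        positivity
      · push Not at hnN
        have hnN' : (N:ℝ) < n := by exact_mod_cast hnN
        have : g n = 0 := if_neg (by rw [mem_Icc]; omega)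
        rw [this, sub_zero, norm_mul, Complex.norm_real, Real.norm_of_nonneg hd,
          Complex.norm_natCast_cpow_of_pos hn, Complex.neg_re]
        have h9 : (n:ℝ) ^ (-z.re) = ((n:ℝ) ^ 2)⁻¹ * (n:ℝ) ^ (-(z.re - 2)) := by
          rw [← Real.rpow_natCast, ← Real.rpow_neg hn0.le, ← Real.rpow_add hn0]
          congr 1; push_cast; ring
        have h10 : (n:ℝ) ^ (-(z.re - 2)) ≤ (N:ℝ) ^ (-(z.re - 2)) :=
          Real.rpow_le_rpow_of_nonpos hN0 hnN'.le (by linarith)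
        have h11 : (N:ℝ) ^ (-(z.re - 2)) = (N:ℝ) ^ 2 * (N:ℝ) ^ (-z.re) := by
          rw [← Real.rpow_natCast, ← Real.rpow_add hN0]
          congr 1; push_cast; ring
        rw [h9, ← h11]
        calc dd k n * (((n:ℝ) ^ 2)⁻¹ * (n:ℝ) ^ (-(z.re - 2))) ≤
            dd k n * (((n:ℝ) ^ 2)⁻¹ * (N:ℝ) ^ (-(z.re - 2))) := by gcongr
          _ = _ := by ring
  rw [tsum_mul_left] at h6
  have h7 : (N:ℝ) ^ (-z.re) * (N:ℝ) ^ z.re = 1 := by
    rw [← Real.rpow_add hN0, neg_add_cancel, Real.rpow_zero]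
  calc ‖riemannZeta z ^ k - DS (dd k) N z‖ * (N:ℝ) ^ z.re ≤
      ((N:ℝ) ^ 2 * (N:ℝ) ^ (-z.re) * ∑' n : ℕ, dd k n * ((n : ℝ) ^ 2)⁻¹) * (N:ℝ) ^ z.re :=
        mul_le_mul_of_nonneg_right h6 (by positivity)
    _ = (N:ℝ) ^ 2 * ((N:ℝ) ^ (-z.re) * (N:ℝ) ^ z.re) * ∑' n : ℕ, dd k n * ((n : ℝ) ^ 2)⁻¹ := by ring
    _ = _ := by rw [h7, mul_one]

/-! ### sums of squares -/

/-- `∑ d_k(n)^2 n^{-1-σ}` -/
noncomputable def SS (k : ℕ) (σ : ℝ) : ℝ := ∑' n : ℕ, dd k n ^ 2 * (n : ℝ) ^ (-1 - σ)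

/-- `∑_{n ≤ N} d_k(n)^2 n^{-1-σ}` -/
noncomputable def PS (k : ℕ) (σ : ℝ) (N : ℕ) : ℝ := ∑ n ∈ Icc 1 N, dd k n ^ 2 * (n : ℝ) ^ (-1 - σ)

lemma cf_one_eq (k : ℕ) (σ : ℝ) (n : ℕ) :
    cf (fun _ : Fin 1 => (k:ℝ)) (fun _ => σ) n = dd k n ^ 2 * (n : ℝ) ^ (-1 - σ) := by
  unfold cf Gs
  simp only [univ_unique, sum_const, card_singleton, one_smul, prod_const, pow_one, tw_apply]
  rcases Nat.eq_zero_or_pos n with h0 | h0
  · subst h0; simp [dd_zero]
  · have hn : (0:ℝ) < n := by exact_mod_cast h0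
    rw [show (-1 - σ : ℝ) = -σ - 1 by ring, Real.rpow_sub hn, Real.rpow_one]
    unfold dd
    ring

lemma SS_summable (k : ℕ) {σ : ℝ} (hσ : 0 < σ) : Summable fun n : ℕ => dd k n ^ 2 * (n : ℝ) ^ (-1 - σ) := by
  have h := cf_summable (e := fun _ : Fin 1 => (k:ℝ)) (s := fun _ => σ) (fun _ => Nat.cast_nonneg k) hσ
    (fun _ => le_rfl)
  exact h.congr fun n => cf_one_eq k σ n

lemma SS_nonneg (k : ℕ) (σ : ℝ) : 0 ≤ SS k σ := tsum_nonneg fun n => by positivity

lemma PS_nonneg (k : ℕ) (σ : ℝ) (N : ℕ) : 0 ≤ PS k σ N := sum_nonneg fun n _ => by positivity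

lemma PS_le_SS (k N : ℕ) {σ : ℝ} (hσ : 0 < σ) : PS k σ N ≤ SS k σ :=
  (SS_summable k hσ).sum_le_tsum _ fun n _ => by positivity

theorem SS_tendsto {k : ℕ} (hk : 1 ≤ k) :
    Tendsto (fun σ : ℝ => σ ^ (k ^ 2) * SS k σ) (𝓝[>] 0) (𝓝 (aF k)) := by
  have hk0 : (0:ℝ) < k := by exact_mod_cast hk
  have h := cf_tsum_tendsto (fun _ : Fin 1 => (k:ℝ)) (fun _ => hk0) (fun _ => (1:ℝ)) (fun _ => one_pos)
  simp only [univ_unique, sum_const, card_singleton, one_smul, Real.one_rpow, prod_const_one, mul_one,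
    cf_one_eq] at h
  have h2 := h.comp tendsto_inv_nhdsGT_zero
  refine h2.congr' ?_
  filter_upwards [self_mem_nhdsWithin] with σ hσ
  have hσ0 : 0 < σ := hσ
  simp only [Function.comp]
  have e1 : (σ⁻¹) ^ ((k:ℝ) ^ 2) = (σ ^ (k ^ 2))⁻¹ := by
    rw [show ((k:ℝ) ^ 2) = ((k ^ 2 : ℕ) : ℝ) by push_cast; ring, Real.rpow_natCast, inv_pow]
  rw [e1, div_inv_eq_mul, one_div, inv_inv, mul_comm]
  rfl

lemma tail_le (k : ℕ) {N : ℕ} (hN : 1 ≤ N) {σ : ℝ} (hσ : 0 < σ) :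
    SS k σ - PS k σ N ≤ (N : ℝ) ^ (-(σ / 2)) * SS k (σ / 2) := by
  have hN0 : (0:ℝ) < N := by exact_mod_cast hN
  have h1 := (SS_summable k hσ)
  have h2 := (SS_summable k (half_pos hσ)).mul_left ((N : ℝ) ^ (-(σ / 2)))
  have h3 : HasSum (fun n : ℕ => if n ∈ Icc 1 N then dd k n ^ 2 * (n : ℝ) ^ (-1 - σ) else 0) (PS k σ N) := by
    have h : HasSum (fun n : ℕ => if n ∈ Icc 1 N then dd k n ^ 2 * (n : ℝ) ^ (-1 - σ) else 0)
      (∑ n ∈ Icc 1 N, if n ∈ Icc 1 N then dd k n ^ 2 * (n : ℝ) ^ (-1 - σ) else 0) :=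
      hasSum_sum_of_ne_finset_zero (fun n hn => if_neg hn)
    have e : (∑ n ∈ Icc 1 N, if n ∈ Icc 1 N then dd k n ^ 2 * (n : ℝ) ^ (-1 - σ) else 0) = PS k σ N :=
      sum_congr rfl fun n hn => if_pos hn
    rwa [e] at h
  have h4 := h1.hasSum.sub h3
  have h5 : SS k σ - PS k σ N ≤ ∑' n : ℕ, (N : ℝ) ^ (-(σ / 2)) * (dd k n ^ 2 * (n : ℝ) ^ (-1 - σ / 2)) := by
    refine hasSum_le (fun n => ?_) h4 h2.hasSum
    by_cases hn : n ∈ Icc 1 N
    · rw [if_pos hn, sub_self]; positivity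
    · rw [if_neg hn, sub_zero]
      rcases Nat.eq_zero_or_pos n with h0 | h0
      · subst h0; simp [dd_zero]
      · have hn0 : (0:ℝ) < n := by exact_mod_cast h0
        have hnN : (N:ℝ) ≤ n := by
          rw [mem_Icc] at hn
          exact_mod_cast (by omega : N ≤ n)
        have e : (n:ℝ) ^ (-1 - σ) = (n:ℝ) ^ (-(σ / 2)) * (n:ℝ) ^ (-1 - σ / 2) := by
          rw [← Real.rpow_add hn0]; congr 1; ring
        have h6 : (n:ℝ) ^ (-(σ / 2)) ≤ (N:ℝ) ^ (-(σ / 2)) := Real.rpow_le_rpow_of_nonpos hN0 hnN (by linarith)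
        rw [e]
        calc dd k n ^ 2 * ((n:ℝ) ^ (-(σ / 2)) * (n:ℝ) ^ (-1 - σ / 2)) ≤
            dd k n ^ 2 * ((N:ℝ) ^ (-(σ / 2)) * (n:ℝ) ^ (-1 - σ / 2)) := by gcongr
          _ = _ := by ring
  rwa [tsum_mul_left] at h5

/-- the sum on the line -/
lemma PS_zero_le (k : ℕ) {N : ℕ} (hN : 2 ≤ N) : PS k 0 N ≤ Real.exp 1 * SS k (1 / Real.log N) := by
  have hN1 : (1:ℝ) < N := by exact_mod_cast (by omega : 1 < N)
  have hL : 0 < Real.log N := Real.log_pos hN1
  refine le_trans ?_ (mul_le_mul_of_nonneg_left (PS_le_SS k N (by positivity : 0 < 1 / Real.log N)) (Real.exp_pos 1).le)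
  unfold PS
  rw [mul_sum]
  refine sum_le_sum fun n hn => ?_
  rw [mem_Icc] at hn
  have hn0 : (0:ℝ) < n := by exact_mod_cast (by omega : 0 < n)
  have h1 : (n:ℝ) ^ (1 / Real.log N) ≤ Real.exp 1 := by
    rw [Real.rpow_def_of_pos hn0]
    refine Real.exp_le_exp.mpr ?_
    rw [mul_one_div, div_le_one hL]
    exact Real.log_le_log hn0 (by exact_mod_cast hn.2)
  have e : (n:ℝ) ^ (-1 - 0 : ℝ) = (n:ℝ) ^ (1 / Real.log N) * (n:ℝ) ^ (-1 - 1 / Real.log N) := by
    rw [← Real.rpow_add hn0]; congr 1; ring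
  rw [e]
  calc dd k n ^ 2 * ((n:ℝ) ^ (1 / Real.log N) * (n:ℝ) ^ (-1 - 1 / Real.log N)) ≤
      dd k n ^ 2 * (Real.exp 1 * (n:ℝ) ^ (-1 - 1 / Real.log N)) := by gcongr
    _ = _ := by ring

/-! ### mean values -/

lemma inv_sum_le {N m : ℕ} (hm : m ∈ Icc 1 N) :
    ∑ n ∈ (Icc 1 N).filter (fun n => n ≠ m), (1:ℝ) / |(m:ℝ) - n| ≤ 2 * (1 + Real.log N) := by
  rw [mem_Icc] at hm
  have hsplit : (Icc 1 N).filter (fun n => n ≠ m) =
      (Icc 1 N).filter (fun n => n < m) ∪ (Icc 1 N).filter (fun n => m < n) := by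
    ext n; simp only [mem_filter, mem_union, mem_Icc]; omega
  have hdis : Disjoint ((Icc 1 N).filter (fun n => n < m)) ((Icc 1 N).filter (fun n => m < n)) := by
    rw [disjoint_left]; intro n hn hn'
    rw [mem_filter] at hn hn'; omega
  rw [hsplit, sum_union hdis]
  have b1 : ∑ n ∈ (Icc 1 N).filter (fun n => n < m), (1:ℝ) / |(m:ℝ) - n| ≤ ∑ j ∈ Icc 1 N, (1:ℝ) / j := by
    have hinj : Set.InjOn (fun n => m - n) ((Icc 1 N).filter (fun n => n < m) : Finset ℕ) := by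
      intro a ha b hb hab
      simp only [coe_filter, mem_Icc, Set.mem_ofPred_eq] at ha hb
      simp only at hab
      omega
    have e : ∑ n ∈ (Icc 1 N).filter (fun n => n < m), (1:ℝ) / |(m:ℝ) - n| =
        ∑ n ∈ (Icc 1 N).filter (fun n => n < m), (1:ℝ) / ((m - n : ℕ) : ℝ) := by
      refine sum_congr rfl fun n hn => ?_
      rw [mem_filter] at hn
      rw [Nat.cast_sub hn.2.le, abs_of_pos]
      have : (n:ℝ) < m := by exact_mod_cast hn.2
      linarith
    rw [e, ← sum_image (f := fun k : ℕ => (1:ℝ) / k) hinj]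
    refine sum_le_sum_of_subset_of_nonneg ?_ fun i _ _ => by positivity
    intro j hj
    rw [mem_image] at hj
    obtain ⟨n, hn, rfl⟩ := hj
    rw [mem_filter, mem_Icc] at hn
    rw [mem_Icc]
    omega
  have b2 : ∑ n ∈ (Icc 1 N).filter (fun n => m < n), (1:ℝ) / |(m:ℝ) - n| ≤ ∑ j ∈ Icc 1 N, (1:ℝ) / j := by
    have hinj : Set.InjOn (fun n => n - m) ((Icc 1 N).filter (fun n => m < n) : Finset ℕ) := by
      intro a ha b hb hab
      simp only [coe_filter, mem_Icc, Set.mem_ofPred_eq] at ha hb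
      simp only at hab
      omega
    have e : ∑ n ∈ (Icc 1 N).filter (fun n => m < n), (1:ℝ) / |(m:ℝ) - n| =
        ∑ n ∈ (Icc 1 N).filter (fun n => m < n), (1:ℝ) / ((n - m : ℕ) : ℝ) := by
      refine sum_congr rfl fun n hn => ?_
      rw [mem_filter] at hn
      rw [Nat.cast_sub hn.2.le, abs_sub_comm, abs_of_pos]
      have : (m:ℝ) < n := by exact_mod_cast hn.2
      linarith
    rw [e, ← sum_image (f := fun k : ℕ => (1:ℝ) / k) hinj]
    refine sum_le_sum_of_subset_of_nonneg ?_ fun i _ _ => by positivity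
    intro j hj
    rw [mem_image] at hj
    obtain ⟨n, hn, rfl⟩ := hj
    rw [mem_filter, mem_Icc] at hn
    rw [mem_Icc]
    omega
  have := harm_le N
  linarith

/-- mean value theorem for Dirichlet polynomials with any nonnegative coefficients -/
theorem mv_gen {g : ℕ → ℝ} (hg : ∀ n, 0 ≤ g n) (σ : ℝ) (N : ℕ) (A B : ℝ) :
    |(∫ t in A..B, ‖DS g N ((σ : ℂ) + t * Complex.I)‖ ^ 2) -
      (B - A) * ∑ n ∈ Icc 1 N, g n ^ 2 * (n : ℝ) ^ (-(2 * σ))| ≤
      4 * N * (1 + Real.log N) * ∑ n ∈ Icc 1 N, g n ^ 2 * (n : ℝ) ^ (-(2 * σ)) := by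
  set a : ℕ → ℝ := fun n => g n * (n:ℝ) ^ (-σ) with ha
  have ha0 : ∀ n, 0 ≤ a n := fun n => mul_nonneg (hg n) (by positivity)
  have hsq : ∀ n, g n ^ 2 * (n : ℝ) ^ (-(2 * σ)) = a n ^ 2 := by
    intro n
    rw [ha]
    simp only
    rw [mul_pow, ← Real.rpow_natCast ((n:ℝ) ^ (-σ)), ← Real.rpow_mul (Nat.cast_nonneg n)]
    congr 2
    push_cast; ring
  simp_rw [hsq, DS_norm_sq]
  have hint : ∀ m n : ℕ, IntervalIntegrable (fun t => a m * a n *
      Real.cos (t * (Real.log m - Real.log n))) volume A B := fun m n =>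
    Continuous.intervalIntegrable (by fun_prop) _ _
  have e1 : (∫ t in A..B, ∑ m ∈ Icc 1 N, ∑ n ∈ Icc 1 N, a m * a n *
        Real.cos (t * (Real.log m - Real.log n))) =
      ∑ m ∈ Icc 1 N, ∑ n ∈ Icc 1 N, a m * a n * ∫ t in A..B,
        Real.cos (t * (Real.log m - Real.log n)) := by
    rw [intervalIntegral.integral_finsetSum fun m _ =>
      Continuous.intervalIntegrable (by fun_prop) _ _]
    refine sum_congr rfl fun m _ => ?_
    rw [intervalIntegral.integral_finsetSum fun n _ => hint m n]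
    refine sum_congr rfl fun n _ => ?_
    rw [intervalIntegral.integral_const_mul]
  have e2 : (B - A) * ∑ n ∈ Icc 1 N, a n ^ 2 =
      ∑ m ∈ Icc 1 N, ∑ n ∈ Icc 1 N, if n = m then (B - A) * a n ^ 2 else 0 := by
    rw [mul_sum]
    refine sum_congr rfl fun m hm => ?_
    rw [sum_ite_eq' (Icc 1 N) m (fun n => (B - A) * a n ^ 2), if_pos hm]
  change |(∫ t in A..B, ∑ m ∈ Icc 1 N, ∑ n ∈ Icc 1 N, a m * a n *
        Real.cos (t * (Real.log m - Real.log n))) - _| ≤ _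
  rw [e1, e2, ← sum_sub_distrib]
  simp_rw [← sum_sub_distrib]
  set w : ℕ → ℕ → ℝ := fun m n => if n ≠ m then (1:ℝ) / |(m:ℝ) - n| else 0 with hw
  have hw0 : ∀ m n, 0 ≤ w m n := by
    intro m n; simp only [hw]; split_ifs
    · positivity
    · exact le_rfl
  have hws : ∀ m n, w m n = w n m := by
    intro m n; simp only [hw]; rw [abs_sub_comm]
    by_cases h : n = m
    · subst h; rfl
    · rw [if_pos h, if_pos (Ne.symm h)]
  have hterm : ∀ m ∈ Icc 1 N, ∀ n ∈ Icc 1 N,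
      |a m * a n * (∫ t in A..B, Real.cos (t * (Real.log m - Real.log n))) -
        (if n = m then (B - A) * a n ^ 2 else 0)| ≤ N * (a m ^ 2 * w m n) + N * (a n ^ 2 * w m n) := by
    intro m hm n hn
    rw [mem_Icc] at hm hn
    have hm0 : (0:ℝ) < m := by exact_mod_cast hm.1
    have hn0 : (0:ℝ) < n := by exact_mod_cast hn.1
    have hmn : a m * a n ≤ (1 / 2) * (a m ^ 2 + a n ^ 2) := by nlinarith [sq_nonneg (a m - a n)]
    have hmn0 : 0 ≤ a m * a n := mul_nonneg (ha0 m) (ha0 n)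
    by_cases h : n = m
    · subst h
      rw [if_pos rfl, sub_self]
      simp only [mul_zero, Real.cos_zero]
      rw [intervalIntegral.integral_const, smul_eq_mul, mul_one]
      rw [show a n * a n * (B - A) - (B - A) * a n ^ 2 = 0 by ring, abs_zero]
      have := hw0 n n
      positivity
    · rw [if_neg h, sub_zero, abs_mul, abs_of_nonneg hmn0]
      have hwe : w m n = 1 / |(m:ℝ) - n| := by simp only [hw]; rw [if_pos h]
      have hne : (m:ℝ) - n ≠ 0 := sub_ne_zero.mpr (by exact_mod_cast (Ne.symm h))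
      have hab : 0 < |(m:ℝ) - n| := abs_pos.mpr hne
      have hgap : |(m:ℝ) - n| / N ≤ |Real.log m - Real.log n| := by
        rcases lt_or_gt_of_ne h with h' | h'
        · have hg := log_gap hn.1 h'
          have hd : (n:ℝ) < m := by exact_mod_cast h'
          have h1 : |(m:ℝ) - n| = m - n := abs_of_pos (by linarith)
          rw [h1]
          refine le_trans ?_ (hg.trans (le_abs_self _))
          exact div_le_div_of_nonneg_left (by linarith) hm0 (by exact_mod_cast hm.2)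
        · have hg := log_gap hm.1 h'
          have hd : (m:ℝ) < n := by exact_mod_cast h'
          have h1 : |(m:ℝ) - n| = n - m := by rw [abs_sub_comm]; exact abs_of_pos (by linarith)
          rw [h1, abs_sub_comm]
          refine le_trans ?_ (hg.trans (le_abs_self _))
          exact div_le_div_of_nonneg_left (by linarith) hn0 (by exact_mod_cast hn.2)
      have hN0 : (0:ℝ) < N := lt_of_lt_of_le hm0 (by exact_mod_cast hm.2)
      have hx0 : 0 < |Real.log m - Real.log n| := lt_of_lt_of_le (by positivity) hgap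
      have hx : Real.log m - Real.log n ≠ 0 := abs_pos.mp hx0
      have h1 := abs_int_cos (A := A) (B := B) hx
      have h2 : 2 / |Real.log m - Real.log n| ≤ 2 * (N * w m n) := by
        rw [hwe, div_le_iff₀ hx0]
        calc (2:ℝ) = 2 * (N * (1 / |(m:ℝ) - n|)) * (|(m:ℝ) - n| / N) := by field_simp
          _ ≤ _ := mul_le_mul_of_nonneg_left hgap (by positivity)
      have hw1 := hw0 m n
      calc a m * a n * |∫ t in A..B, Real.cos (t * (Real.log m - Real.log n))| ≤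
          ((1 / 2) * (a m ^ 2 + a n ^ 2)) * (2 * (N * w m n)) :=
            mul_le_mul hmn (h1.trans h2) (abs_nonneg _) (by positivity)
        _ = _ := by ring
  refine (abs_sum_le_sum_abs _ _).trans ?_
  refine (sum_le_sum fun m hm => (abs_sum_le_sum_abs _ _).trans
    (sum_le_sum fun n hn => hterm m hm n hn)).trans ?_
  simp_rw [sum_add_distrib]
  have r1 : ∑ m ∈ Icc 1 N, ∑ n ∈ Icc 1 N, (N:ℝ) * (a m ^ 2 * w m n) ≤
      2 * N * (1 + Real.log N) * ∑ n ∈ Icc 1 N, a n ^ 2 := by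
    rw [mul_sum]
    refine sum_le_sum fun m hm => ?_
    rw [← mul_sum, ← mul_sum]
    have h1 : ∑ n ∈ Icc 1 N, w m n ≤ 2 * (1 + Real.log N) := by
      simp only [hw]
      rw [← sum_filter]
      exact inv_sum_le hm
    calc (N:ℝ) * (a m ^ 2 * ∑ n ∈ Icc 1 N, w m n) ≤ N * (a m ^ 2 * (2 * (1 + Real.log N))) := by gcongr
      _ = _ := by ring
  have r2 : ∑ m ∈ Icc 1 N, ∑ n ∈ Icc 1 N, (N:ℝ) * (a n ^ 2 * w m n) ≤
      2 * N * (1 + Real.log N) * ∑ n ∈ Icc 1 N, a n ^ 2 := by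
    rw [sum_comm]
    simp_rw [hws]
    refine le_trans (le_of_eq ?_) r1
    refine sum_congr rfl fun m _ => sum_congr rfl fun n _ => ?_
    rw [hws m n]
  linarith

/-- the mean square of the truncated series of `ζ^k` -/
theorem mv_dd (k : ℕ) (δ : ℝ) (N : ℕ) (A B : ℝ) :
    |(∫ t in A..B, ‖DS (dd k) N (((1 / 2 + δ : ℝ) : ℂ) + t * Complex.I)‖ ^ 2) -
      (B - A) * PS k (2 * δ) N| ≤ 4 * N * (1 + Real.log N) * PS k (2 * δ) N := by
  have h := mv_gen (dd_nonneg k) (1 / 2 + δ) N A B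
  rw [show (-(2 * (1 / 2 + δ)) : ℝ) = -1 - 2 * δ by ring] at h
  exact h

end Pool.Agent.J4H26.EQ
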