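import Pool.Agent.J4H26.EQ.Refl
import Pool.Agent.J4H26.EQ.Arith

set_option autoImplicit false

/-! The approximation of `ζ^k` near the line by short Dirichlet polynomials, in terms of the moment on the line. -/

namespace Pool.Agent.J4H26.EQ

open MeasureTheory Filter Topology Complex Pool.Agent.H306R2 Pool.Agent.W184

lemma SS_low {k : ℕ} (hk : 1 ≤ k) : ∃ c : ℝ, 0 < c ∧ ∀ σ : ℝ, 0 < σ → σ ≤ 1 → c ≤ σ ^ (k ^ 2) * SS k σ := by
  have hk0 : (0:ℝ) < k := by exact_mod_cast hk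
  have ha := aF_pos hk0
  have h1 : ∀ᶠ σ in 𝓝[>] (0:ℝ), aF k / 2 < σ ^ (k ^ 2) * SS k σ :=
    (SS_tendsto hk).eventually (lt_mem_nhds (by linarith))
  rw [eventually_nhdsWithin_iff, Metric.eventually_nhds_iff] at h1
  obtain ⟨r, hr, h1⟩ := h1
  refine ⟨min (aF k / 2) (min r 1 ^ (k ^ 2)), by positivity, fun σ h0 hσ1 => ?_⟩
  rcases lt_or_ge σ (min r 1) with h | h
  · refine (min_le_left _ _).trans (h1 ?_ h0).le
    rw [Real.dist_eq, sub_zero, abs_of_pos h0]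
    exact lt_of_lt_of_le h (min_le_left _ _)
  · refine (min_le_right _ _).trans ?_
    have h2 : (1:ℝ) ≤ SS k σ := by
      have h3 := (SS_summable k h0).sum_le_tsum {1} fun n _ => by positivity
      have h4 : dd k 1 = 1 := by unfold dd; exact dv_one _
      simp only [Finset.sum_singleton, h4, Nat.cast_one, Real.one_rpow, one_pow, mul_one] at h3
      exact h3
    calc min r 1 ^ (k ^ 2) ≤ σ ^ (k ^ 2) * 1 := by
          rw [mul_one]; exact pow_le_pow_left₀ (by positivity) h _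
      _ ≤ _ := by gcongr

lemma SS_up {k : ℕ} (hk : 1 ≤ k) : ∃ C : ℝ, 0 < C ∧ ∀ σ : ℝ, 0 < σ → σ ≤ 1 → σ ^ (k ^ 2) * SS k σ ≤ C := by
  have h1 : ∀ᶠ σ in 𝓝[>] (0:ℝ), σ ^ (k ^ 2) * SS k σ < aF k + 1 :=
    (SS_tendsto hk).eventually (gt_mem_nhds (by linarith))
  rw [eventually_nhdsWithin_iff, Metric.eventually_nhds_iff] at h1
  obtain ⟨r, hr, h1⟩ := h1
  have hk0 : (0:ℝ) < k := by exact_mod_cast hk
  have ha := aF_pos hk0
  have hS := SS_nonneg k (r / 2)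
  refine ⟨aF k + 1 + SS k (r / 2), by positivity, fun σ h0 hσ1 => ?_⟩
  rcases lt_or_ge σ r with h | h
  · have := h1 (y := σ) (by rw [Real.dist_eq, sub_zero, abs_of_pos h0]; exact h) h0
    linarith
  · have h2 : SS k σ ≤ SS k (r / 2) := by
      refine (SS_summable k h0).tsum_le_tsum (fun n => ?_) (SS_summable k (half_pos hr))
      rcases Nat.eq_zero_or_pos n with hn | hn
      · subst hn; simp [dd_zero]
      · refine mul_le_mul_of_nonneg_left ?_ (by positivity)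
        exact Real.rpow_le_rpow_of_exponent_le (by exact_mod_cast hn) (by linarith)
    have h3 : σ ^ (k ^ 2) ≤ 1 := pow_le_one₀ h0.le hσ1
    have h4 := SS_nonneg k σ
    nlinarith

lemma nrm_pow2 (z : ℂ) (k : ℕ) : ‖z‖ ^ (2 * k) = ‖z ^ k‖ ^ 2 := by
  rw [norm_pow, ← pow_mul, mul_comm]

theorem L0 {k : ℕ} (hk : 1 ≤ k) : ∃ C : ℝ, 0 < C ∧ ∀ (T : ℝ) (N : ℕ) (Δ : ℝ), 1 ≤ T → 1 ≤ N → (N:ℝ) ≤ T →
    0 < Δ → Δ ≤ 1 / 16 → ∫ t in (0:ℝ)..T, qd k (DS (dd k) N) (1 / 2 + Δ) t ≤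
      C * (N:ℝ) ^ (-(2 * Δ)) * ((∫ t in (0:ℝ)..(2 * T), zn (1 / 2) t ^ (2 * k)) +
        (T + N * (1 + Real.log N)) * PS k 0 N + 1 / Δ) := by
  set M : ℕ := 3 * k + 4 with hM
  set c0 : ℝ := ((1 / 2) ^ k / 2 ^ (2 * M)) ^ 2 with hc0
  have hc00 : 0 < c0 := by positivity
  set Ce : ℝ := 2 * (288 ^ k + 1) * 4 ^ k * Real.pi with hCe
  refine ⟨(8 + Ce) / c0, by positivity, fun T N Δ hT hN hNT h0 h1 => ?_⟩
  have hT0 : 0 < T := by linarith
  have hN0 : (0:ℝ) < N := by exact_mod_cast hN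
  have hN1 : (1:ℝ) ≤ N := by exact_mod_cast hN
  have hlogN : 0 ≤ Real.log N := Real.log_nonneg hN1
  have hmain := hp_wink (Q := DS (dd k) N) (N := N) (C1 := (N:ℝ) ^ (k + 1))
    (C2 := (N:ℝ) ^ 2 * ∑' n : ℕ, dd k n * ((n : ℝ) ^ 2)⁻¹) (Δ := Δ) (T := T) (k := k) (M := M) hN1
    (by omega) (by omega) (DS_diff _ _) (fun z hz => DS_le k N (by linarith))
    (fun z hz => zeta_far k hN hz) h0 (by linarith) hT
  set I := ∫ t in (0:ℝ)..T, qd k (DS (dd k) N) (1 / 2 + Δ) t with hI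
  have hI0 : 0 ≤ I := intervalIntegral.integral_nonneg hT0.le fun x _ => qd_nonneg _ _ _ _
  -- the factor
  have hfac : c0 * (N:ℝ) ^ (2 * Δ) ≤ ((1 - 8 * Δ) ^ k * (N:ℝ) ^ Δ / (1 + Δ) ^ (2 * M)) ^ 2 := by
    have a1 : (1 / 2 : ℝ) ^ k ≤ (1 - 8 * Δ) ^ k := pow_le_pow_left₀ (by norm_num) (by linarith) k
    have a2 : (1 + Δ) ^ (2 * M) ≤ 2 ^ (2 * M) := pow_le_pow_left₀ (by linarith) (by linarith) _
    have e1 : c0 * (N:ℝ) ^ (2 * Δ) = ((1 / 2) ^ k * (N:ℝ) ^ Δ / 2 ^ (2 * M)) ^ 2 := by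
      have : ((N:ℝ) ^ Δ) ^ 2 = (N:ℝ) ^ (2 * Δ) := by
        rw [← Real.rpow_natCast, ← Real.rpow_mul hN0.le]; congr 1; push_cast; ring
      rw [hc0, ← this]
      ring
    rw [e1]
    refine pow_le_pow_left₀ (by positivity) ?_ 2
    have : 0 ≤ (1 - 8 * Δ) ^ k := by
      have : 0 ≤ 1 - 8 * Δ := by linarith
      positivity
    gcongr
  -- the window
  have hzc : Continuous fun t => zn (1 / 2) t ^ (2 * k) := (zn_cont (σ := 1 / 2) (by norm_num)).pow _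
  have hDc : Continuous fun t : ℝ => ‖DS (dd k) N (((1 / 2 : ℝ) : ℂ) + t * Complex.I)‖ ^ 2 := by
    have h1 : Continuous fun t : ℝ => (((1 / 2 : ℝ) : ℂ) + t * Complex.I) := by fun_prop
    exact (((DS_diff (dd k) N).continuous.comp h1).norm).pow 2
  have hqc := qd_cont (k := k) (DS_diff (dd k) N) (σ := 1 / 2) (by norm_num)
  have hW : ∫ t in (-T)..(2 * T), qd k (DS (dd k) N) (1 / 2) t ≤
      4 * (∫ t in (0:ℝ)..(2 * T), zn (1 / 2) t ^ (2 * k)) + 8 * ((T + N * (1 + Real.log N)) * PS k 0 N) := by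
    have a1 : ∫ t in (-T)..(2 * T), qd k (DS (dd k) N) (1 / 2) t ≤
        ∫ t in (-T)..(2 * T), (2 * zn (1 / 2) t ^ (2 * k) +
          2 * ‖DS (dd k) N (((1 / 2 : ℝ) : ℂ) + t * Complex.I)‖ ^ 2) := by
      refine intervalIntegral.integral_mono_on (by linarith) (hqc.intervalIntegrable _ _)
        (((continuous_const.mul hzc).add (continuous_const.mul hDc)).intervalIntegrable _ _) fun t _ => ?_
      unfold qd zn
      rw [nrm_pow2]
      set a := riemannZeta (((1 / 2 : ℝ) : ℂ) + t * Complex.I) ^ k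
      set b := DS (dd k) N (((1 / 2 : ℝ) : ℂ) + t * Complex.I)
      have h8 := norm_sub_le a b
      have := pow_le_pow_left₀ (norm_nonneg _) h8 2
      nlinarith [sq_nonneg (‖a‖ - ‖b‖)]
    refine a1.trans ?_
    have i1 : IntervalIntegrable (fun t => 2 * zn (1 / 2) t ^ (2 * k)) volume (-T) (2 * T) :=
      (continuous_const.mul hzc).intervalIntegrable _ _
    have i2 : IntervalIntegrable (fun t : ℝ => 2 * ‖DS (dd k) N (((1 / 2 : ℝ) : ℂ) + t * Complex.I)‖ ^ 2)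
        volume (-T) (2 * T) := (continuous_const.mul hDc).intervalIntegrable _ _
    rw [intervalIntegral.integral_add i1 i2, intervalIntegral.integral_const_mul,
      intervalIntegral.integral_const_mul]
    have a2 := even_window hzc (fun x => pow_nonneg (zn_nonneg _ _) _) (fun x => by rw [zn_neg]) hT0.le
    have a3 := mv_dd k 0 N (-T) (2 * T)
    rw [mul_zero, add_zero] at a3
    have a4 := (abs_le.mp a3).2
    have hP := PS_nonneg k 0 N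
    have hTP : 0 ≤ T * PS k 0 N := by positivity
    have hNP : 0 ≤ N * (1 + Real.log N) * PS k 0 N := by positivity
    nlinarith
  -- the error
  have hE : T * ((2 * (288 ^ k + ((N:ℝ) ^ (k + 1)) ^ 2)) * (4 * T ^ 2) ^ k) *
        (Real.pi * (1 / Δ) * (T ^ (2 * (2 * M - k - 1)))⁻¹) ≤ Ce * (1 / Δ) := by
    have e1 : 2 * (2 * M - k - 1) = 1 + (2 * (k + 1) + 2 * k + (6 * k + 11)) := by omega
    have b1 : ((N:ℝ) ^ (k + 1)) ^ 2 ≤ T ^ (2 * (k + 1)) := by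
      rw [← pow_mul, mul_comm (k + 1) 2]
      exact pow_le_pow_left₀ hN0.le hNT _
    have b2 : (288:ℝ) ^ k + ((N:ℝ) ^ (k + 1)) ^ 2 ≤ (288 ^ k + 1) * T ^ (2 * (k + 1)) := by
      have : (1:ℝ) ≤ T ^ (2 * (k + 1)) := one_le_pow₀ hT
      have h3 : (0:ℝ) < 288 ^ k := by positivity
      nlinarith
    calc T * ((2 * (288 ^ k + ((N:ℝ) ^ (k + 1)) ^ 2)) * (4 * T ^ 2) ^ k) *
        (Real.pi * (1 / Δ) * (T ^ (2 * (2 * M - k - 1)))⁻¹) ≤
        T * ((2 * ((288 ^ k + 1) * T ^ (2 * (k + 1)))) * (4 * T ^ 2) ^ k) *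
        (Real.pi * (1 / Δ) * (T ^ (2 * (2 * M - k - 1)))⁻¹) := by gcongr
      _ = Ce * (1 / Δ) * (T ^ (6 * k + 11))⁻¹ := by
          rw [e1, pow_add T 1, pow_add T (2 * (k + 1) + 2 * k), pow_add T (2 * (k + 1)), hCe, mul_pow 4, ← pow_mul]
          field_simp
      _ ≤ Ce * (1 / Δ) := by
          refine mul_le_of_le_one_right (by positivity) ?_
          rw [inv_le_one_iff₀]; right
          exact one_le_pow₀ hT
  -- conclusion
  set J := ∫ t in (0:ℝ)..(2 * T), zn (1 / 2) t ^ (2 * k) with hJ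
  have hJ0 : 0 ≤ J := intervalIntegral.integral_nonneg (by linarith) fun x _ => pow_nonneg (zn_nonneg _ _) _
  have hP := PS_nonneg k 0 N
  have hTP : 0 ≤ (T + N * (1 + Real.log N)) * PS k 0 N := by positivity
  have hΔ : 0 ≤ 1 / Δ := by positivity
  have hCe0 : 0 < Ce := by positivity
  have h5 : c0 * (N:ℝ) ^ (2 * Δ) * I ≤ (8 + Ce) * (J + (T + N * (1 + Real.log N)) * PS k 0 N + 1 / Δ) := by
    have h6 := mul_le_mul_of_nonneg_right hfac hI0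
    have h7 : 0 ≤ Ce * (J + (T + N * (1 + Real.log N)) * PS k 0 N) := by positivity
    nlinarith
  have h8 : (N:ℝ) ^ (-(2 * Δ)) * (N:ℝ) ^ (2 * Δ) = 1 := by
    rw [← Real.rpow_add hN0, neg_add_cancel, Real.rpow_zero]
  have h9 := mul_le_mul_of_nonneg_left h5 (show 0 ≤ (N:ℝ) ^ (-(2 * Δ)) / c0 by positivity)
  calc I = (N:ℝ) ^ (-(2 * Δ)) / c0 * (c0 * (N:ℝ) ^ (2 * Δ) * I) := by
        rw [show (N:ℝ) ^ (-(2 * Δ)) / c0 * (c0 * (N:ℝ) ^ (2 * Δ) * I) =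
          ((N:ℝ) ^ (-(2 * Δ)) * (N:ℝ) ^ (2 * Δ)) * (c0 / c0) * I by ring, h8, div_self hc00.ne']
        ring
    _ ≤ _ := h9
    _ = _ := by ring

/-! ### the three means -/

/-- the mean of `|ζ(1/2+δ+it)|^{2k}` -/
noncomputable def MZ (k : ℕ) (δ T : ℝ) : ℝ := 1 / T * ∫ t in (0:ℝ)..T, zn (1 / 2 + δ) t ^ (2 * k)

/-- the mean square of the difference of `ζ^k` and the Dirichlet polynomial of length `T^ε` -/
noncomputable def EZ (k : ℕ) (ε δ T : ℝ) : ℝ :=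
  1 / T * ∫ t in (0:ℝ)..T, qd k (DS (dd k) ⌊T ^ ε⌋₊) (1 / 2 + δ) t

/-- the mean square of the Dirichlet polynomial of length `T^ε` -/
noncomputable def BZ (k : ℕ) (ε δ T : ℝ) : ℝ :=
  1 / T * ∫ t in (0:ℝ)..T, ‖DS (dd k) ⌊T ^ ε⌋₊ (((1 / 2 + δ : ℝ) : ℂ) + t * Complex.I)‖ ^ 2

lemma EZ_nonneg (k : ℕ) (ε δ : ℝ) {T : ℝ} (hT : 0 < T) : 0 ≤ EZ k ε δ T :=
  mul_nonneg (by positivity) (intervalIntegral.integral_nonneg hT.le fun _ _ => qd_nonneg _ _ _ _)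

lemma BZ_nonneg (k : ℕ) (ε δ : ℝ) {T : ℝ} (hT : 0 < T) : 0 ≤ BZ k ε δ T :=
  mul_nonneg (by positivity) (intervalIntegral.integral_nonneg hT.le fun _ _ => by positivity)

lemma abs_sq_sub {a b : ℂ} {η : ℝ} (hη : 0 < η) :
    |‖a‖ ^ 2 - ‖b‖ ^ 2| ≤ η * ‖b‖ ^ 2 + (1 + 1 / η) * ‖a - b‖ ^ 2 := by
  set x := ‖a‖; set y := ‖b‖; set e := ‖a - b‖
  have hx : 0 ≤ x := norm_nonneg _
  have hy : 0 ≤ y := norm_nonneg _
  have he : 0 ≤ e := norm_nonneg _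
  have h1 : |x - y| ≤ e := abs_norm_sub_norm_le a b
  have h2 : |x ^ 2 - y ^ 2| ≤ e * (2 * y + e) := by
    rw [show x ^ 2 - y ^ 2 = (x - y) * (x + y) by ring, abs_mul, abs_of_nonneg (by linarith : 0 ≤ x + y)]
    have h3 : x + y ≤ 2 * y + e := by linarith [(abs_le.mp h1).2]
    exact mul_le_mul h1 h3 (by linarith) he
  have h3 : 2 * (e * y) ≤ η * y ^ 2 + 1 / η * e ^ 2 := by
    have h4 : 0 ≤ (η * y - e) ^ 2 / η := by positivity
    have h5 : (η * y - e) ^ 2 / η = η * y ^ 2 - 2 * (e * y) + 1 / η * e ^ 2 := by field_simp; ring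
    linarith
  nlinarith

lemma MZ_BZ (k : ℕ) (ε : ℝ) {δ T η : ℝ} (hT : 0 < T) (hη : 0 < η) (hδ : δ < 1 / 2) :
    |MZ k δ T - BZ k ε δ T| ≤ η * BZ k ε δ T + (1 + 1 / η) * EZ k ε δ T := by
  set N := ⌊T ^ ε⌋₊ with hN
  have hzc : Continuous fun t => zn (1 / 2 + δ) t ^ (2 * k) := (zn_cont (σ := 1 / 2 + δ) (by linarith)).pow _
  have hDc : Continuous fun t : ℝ => ‖DS (dd k) N (((1 / 2 + δ : ℝ) : ℂ) + t * Complex.I)‖ ^ 2 := by
    have h1 : Continuous fun t : ℝ => (((1 / 2 + δ : ℝ) : ℂ) + t * Complex.I) := by fun_prop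
    exact (((DS_diff (dd k) N).continuous.comp h1).norm).pow 2
  have hqc := qd_cont (k := k) (DS_diff (dd k) N) (σ := 1 / 2 + δ) (by linarith)
  have hpt : ∀ t : ℝ, |zn (1 / 2 + δ) t ^ (2 * k) - ‖DS (dd k) N (((1 / 2 + δ : ℝ) : ℂ) + t * Complex.I)‖ ^ 2| ≤
      η * ‖DS (dd k) N (((1 / 2 + δ : ℝ) : ℂ) + t * Complex.I)‖ ^ 2 +
      (1 + 1 / η) * qd k (DS (dd k) N) (1 / 2 + δ) t := by
    intro t
    unfold zn qd
    rw [nrm_pow2]
    exact abs_sq_sub hη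
  have h1 : |∫ t in (0:ℝ)..T, (zn (1 / 2 + δ) t ^ (2 * k) -
      ‖DS (dd k) N (((1 / 2 + δ : ℝ) : ℂ) + t * Complex.I)‖ ^ 2)| ≤
      ∫ t in (0:ℝ)..T, (η * ‖DS (dd k) N (((1 / 2 + δ : ℝ) : ℂ) + t * Complex.I)‖ ^ 2 +
      (1 + 1 / η) * qd k (DS (dd k) N) (1 / 2 + δ) t) := by
    refine (intervalIntegral.abs_integral_le_integral_abs hT.le).trans ?_
    exact intervalIntegral.integral_mono_on hT.le ((hzc.sub hDc).abs.intervalIntegrable _ _)
      (((continuous_const.mul hDc).add (continuous_const.mul hqc)).intervalIntegrable _ _) fun t _ => hpt t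
  have i1 : IntervalIntegrable (fun t : ℝ => η * ‖DS (dd k) N (((1 / 2 + δ : ℝ) : ℂ) + t * Complex.I)‖ ^ 2)
      volume 0 T := (continuous_const.mul hDc).intervalIntegrable _ _
  have i2 : IntervalIntegrable (fun t : ℝ => (1 + 1 / η) * qd k (DS (dd k) N) (1 / 2 + δ) t)
      volume 0 T := (continuous_const.mul hqc).intervalIntegrable _ _
  rw [intervalIntegral.integral_add i1 i2, intervalIntegral.integral_const_mul,
    intervalIntegral.integral_const_mul,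
    intervalIntegral.integral_sub (hzc.intervalIntegrable _ _) (hDc.intervalIntegrable _ _)] at h1
  unfold MZ BZ EZ
  rw [← hN, ← mul_sub, abs_mul, abs_of_pos (by positivity : 0 < 1 / T)]
  calc _ ≤ 1 / T * (η * (∫ t in (0:ℝ)..T, ‖DS (dd k) N (((1 / 2 + δ : ℝ) : ℂ) + t * Complex.I)‖ ^ 2) +
      (1 + 1 / η) * ∫ t in (0:ℝ)..T, qd k (DS (dd k) N) (1 / 2 + δ) t) := by gcongr
    _ = _ := by ring

end Pool.Agent.J4H26.EQ
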