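import Pool.Agent.J4H26.EQ.Win

set_option autoImplicit false

/-! The half-plane inequality for `ζ^k - Q`. -/

namespace Pool.Agent.J4H26.EQ

open MeasureTheory Filter Topology Complex Pool.Agent.H306R2 Pool.Agent.W184

theorem half_ptk {Q : ℂ → ℂ} {N C1 C2 Δ t : ℝ} {k M : ℕ} (hN : 1 ≤ N) (hM : k ≤ M)
    (hQd : Differentiable ℂ Q) (hQ1 : ∀ z : ℂ, 1 / 2 ≤ z.re → ‖Q z‖ ≤ C1)
    (hQ2 : ∀ z : ℂ, 2 ≤ z.re → ‖riemannZeta z ^ k - Q z‖ * N ^ z.re ≤ C2)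
    (h0 : 0 < Δ) (h1 : Δ ≤ 1 / 8) :
    ((1 - 8 * Δ) ^ k * N ^ Δ / (1 + Δ) ^ (2 * M)) ^ 2 *
      ‖riemannZeta (((1 / 2 + Δ : ℝ) : ℂ) + t * I) ^ k - Q (((1 / 2 + Δ : ℝ) : ℂ) + t * I)‖ ^ 2 ≤
    ∫ w : ℝ, (KP Δ w * ((1 + w ^ 2)⁻¹) ^ (2 * M)) *
      ‖riemannZeta (((1 / 2 : ℝ) : ℂ) + (t + w : ℝ) * I) ^ k -
        Q (((1 / 2 : ℝ) : ℂ) + (t + w : ℝ) * I)‖ ^ 2 := by
  have hN0 : 0 < N := by linarith
  have hNc : (N : ℂ) ≠ 0 := by exact_mod_cast hN0.ne'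
  set c : ℂ := ((1 / 2 : ℝ) : ℂ) + t * I with hc
  have hcre : c.re = 1 / 2 := by simp [hc]
  set F : ℂ → ℂ := fun z => (Zt z ^ k - (z - 1) ^ k * Q z) / z ^ k * (N : ℂ) ^ (z - (1 / 2 : ℝ)) *
    (1 / (1 + z - c)) ^ (2 * M) with hF
  have hne : ∀ z : ℂ, 0 < z.re → z ≠ 0 := by
    rintro z hz rfl; simp at hz
  have hne2 : ∀ z : ℂ, 0 < z.re → 1 + z - c ≠ 0 := by
    intro z hz h
    have := congrArg Complex.re h
    simp [hcre] at this
    linarith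
  have hFd : ∀ z : ℂ, 0 < z.re → DifferentiableAt ℂ F z := by
    intro z hz
    have d1 : DifferentiableAt ℂ (fun z : ℂ => Zt z ^ k) z :=
      DifferentiableAt.pow (Zt_differentiableAt hz) k
    have d2 : DifferentiableAt ℂ (fun z : ℂ => (z - 1) ^ k * Q z) z := by fun_prop
    have d3 : DifferentiableAt ℂ (fun z : ℂ => z ^ k) z := by fun_prop
    refine (((d1.sub d2).div d3 (pow_ne_zero k (hne z hz))).mul ?_).mul ?_
    · exact DifferentiableAt.const_cpow (by fun_prop) (Or.inl hNc)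
    · refine DifferentiableAt.pow ?_ _
      exact (differentiableAt_const _).div (by fun_prop) (hne2 z hz)
  have hg1 : ∀ z : ℂ, 1 / 2 ≤ z.re → 1 ≤ ‖1 + z - c‖ := by
    intro z hz
    have := Complex.re_le_norm (1 + z - c)
    simp only [Complex.add_re, Complex.sub_re, Complex.one_re, hcre] at this
    linarith
  have hFn : ∀ z : ℂ, ‖F z‖ = ‖(Zt z ^ k - (z - 1) ^ k * Q z) / z ^ k‖ * N ^ (z.re - 1 / 2) *
      (1 / ‖1 + z - c‖) ^ (2 * M) := by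
    intro z
    rw [hF]
    simp only
    rw [norm_mul, norm_mul, Complex.norm_cpow_eq_rpow_re_of_pos hN0, norm_pow, norm_div (1:ℂ), norm_one]
    congr 2
  have hZt : ∀ z : ℂ, 0 < z.re → z ≠ 1 → (Zt z ^ k - (z - 1) ^ k * Q z) / z ^ k =
      ((z - 1) / z) ^ k * (riemannZeta z ^ k - Q z) := by
    intro z hz h1
    have h2 := pow_ne_zero k (hne z hz)
    rw [← zeta_eq_pos hz h1, div_pow, mul_pow]
    field_simp
  have hC1 : 0 ≤ C1 := (norm_nonneg _).trans (hQ1 1 (by norm_num))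
  have hC2 : 0 ≤ C2 := (mul_nonneg (norm_nonneg _) (by positivity)).trans (hQ2 2 (by norm_num))
  set B : ℝ := 2 ^ k * (3 ^ k + C1) * (2 + ‖c - 1‖) ^ (2 * k) * N ^ 2 + C2 with hB
  have hb : ∀ z : ℂ, 1 / 2 ≤ z.re → ‖F z‖ ≤ B := by
    intro z hz
    have hz0 : 0 < z.re := by linarith
    have hgz := hg1 z hz
    have hgz0 : 0 < ‖1 + z - c‖ := by linarith
    have hpw : (1 / ‖1 + z - c‖) ^ (2 * M) ≤ (1 / ‖1 + z - c‖) ^ (2 * k) := by
      refine pow_le_pow_of_le_one (by positivity) ?_ (by omega)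
      rw [div_le_one hgz0]; exact hgz
    have hzn : 1 / 2 ≤ ‖z‖ := hz.trans (Complex.re_le_norm z)
    rw [hFn]
    rcases le_total z.re 2 with h2 | h2
    · have b1 : ‖(Zt z ^ k - (z - 1) ^ k * Q z) / z ^ k‖ ≤ 2 ^ k * (3 ^ k + C1) * (‖z‖ + 1) ^ (2 * k) := by
        have hzq : ‖z ^ k‖ = ‖z‖ ^ k := norm_pow z k
        have hzp : 0 < ‖z‖ := by linarith
        rw [norm_div, hzq, div_le_iff₀ (by positivity)]
        have a1 : ‖Zt z ^ k‖ ≤ 3 ^ k * (‖z‖ + 1) ^ (2 * k) := by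
          rw [norm_pow]
          have g := pow_le_pow_left₀ (norm_nonneg _) (Zt_norm_le hz) k
          refine g.trans (le_of_eq ?_)
          rw [mul_pow, ← pow_mul]
        have a2 : ‖(z - 1) ^ k * Q z‖ ≤ (‖z‖ + 1) ^ (2 * k) * C1 := by
          rw [norm_mul, norm_pow]
          have g := norm_sub_le z 1
          rw [norm_one] at g
          have g2 := pow_le_pow_left₀ (norm_nonneg _) g k
          have g3 : (‖z‖ + 1) ^ k ≤ (‖z‖ + 1) ^ (2 * k) :=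
            pow_le_pow_right₀ (by linarith [norm_nonneg z]) (by omega)
          exact mul_le_mul (g2.trans g3) (hQ1 z hz) (norm_nonneg _) (by positivity)
        have a3 := norm_sub_le (Zt z ^ k) ((z - 1) ^ k * Q z)
        have a5 : (3 ^ k + C1) * (‖z‖ + 1) ^ (2 * k) ≤
            2 ^ k * (3 ^ k + C1) * (‖z‖ + 1) ^ (2 * k) * ‖z‖ ^ k := by
          have g : 0 ≤ (3 ^ k + C1) * (‖z‖ + 1) ^ (2 * k) := by positivity
          have g2 : 1 ≤ 2 ^ k * ‖z‖ ^ k := by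
            rw [← mul_pow]
            exact one_le_pow₀ (by linarith)
          calc _ = (3 ^ k + C1) * (‖z‖ + 1) ^ (2 * k) * 1 := (mul_one _).symm
            _ ≤ (3 ^ k + C1) * (‖z‖ + 1) ^ (2 * k) * (2 ^ k * ‖z‖ ^ k) := mul_le_mul_of_nonneg_left g2 g
            _ = _ := by ring
        linarith
      have b2 : N ^ (z.re - 1 / 2) ≤ N ^ 2 := by
        rw [← Real.rpow_natCast]
        refine Real.rpow_le_rpow_of_exponent_le hN ?_
        push_cast; linarith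
      have b3 : ‖z‖ + 1 ≤ ‖1 + z - c‖ * (2 + ‖c - 1‖) := by
        have a1 : ‖z‖ ≤ ‖1 + z - c‖ + ‖c - 1‖ := by
          have := norm_add_le (1 + z - c) (c - 1)
          rwa [show 1 + z - c + (c - 1) = z by ring] at this
        nlinarith [norm_nonneg (c - 1)]
      have b4 : (‖z‖ + 1) ^ (2 * k) * (1 / ‖1 + z - c‖) ^ (2 * k) ≤ (2 + ‖c - 1‖) ^ (2 * k) := by
        rw [← mul_pow]
        refine pow_le_pow_left₀ (by positivity) ?_ _
        rw [mul_one_div, div_le_iff₀ hgz0]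
        linarith
      calc ‖(Zt z ^ k - (z - 1) ^ k * Q z) / z ^ k‖ * N ^ (z.re - 1 / 2) * (1 / ‖1 + z - c‖) ^ (2 * M) ≤
          (2 ^ k * (3 ^ k + C1) * (‖z‖ + 1) ^ (2 * k)) * N ^ 2 * (1 / ‖1 + z - c‖) ^ (2 * k) := by gcongr
        _ = 2 ^ k * (3 ^ k + C1) * ((‖z‖ + 1) ^ (2 * k) * (1 / ‖1 + z - c‖) ^ (2 * k)) * N ^ 2 := by ring
        _ ≤ 2 ^ k * (3 ^ k + C1) * (2 + ‖c - 1‖) ^ (2 * k) * N ^ 2 := by gcongr
        _ ≤ B := by linarith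
    · have hz1 : z ≠ 1 := by
        rintro rfl; norm_num at h2
      rw [hZt z hz0 hz1, norm_mul, norm_pow]
      have b1 : ‖(z - 1) / z‖ ≤ 1 := by
        rw [norm_div, div_le_one (by linarith)]
        have e1 : ‖z - 1‖ ^ 2 ≤ ‖z‖ ^ 2 := by
          rw [Complex.sq_norm, Complex.sq_norm, Complex.normSq_apply, Complex.normSq_apply]
          simp
          nlinarith
        exact (abs_le_of_sq_le_sq' e1 (norm_nonneg _)).2
      have b1' : ‖(z - 1) / z‖ ^ k ≤ 1 := pow_le_one₀ (norm_nonneg _) b1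
      have b2 : N ^ (z.re - 1 / 2) ≤ N ^ z.re := Real.rpow_le_rpow_of_exponent_le hN (by linarith)
      have b3 : (1 / ‖1 + z - c‖) ^ (2 * M) ≤ 1 := by
        refine pow_le_one₀ (by positivity) ?_
        rw [div_le_one hgz0]; exact hgz
      calc ‖(z - 1) / z‖ ^ k * ‖riemannZeta z ^ k - Q z‖ * N ^ (z.re - 1 / 2) * (1 / ‖1 + z - c‖) ^ (2 * M) ≤
          1 * ‖riemannZeta z ^ k - Q z‖ * N ^ z.re * 1 := by gcongr
        _ = ‖riemannZeta z ^ k - Q z‖ * N ^ z.re := by ring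
        _ ≤ C2 := hQ2 z h2
        _ ≤ B := by
          have : 0 ≤ 2 ^ k * (3 ^ k + C1) * (2 + ‖c - 1‖) ^ (2 * k) * N ^ 2 := by positivity
          linarith
  have hmain := hp_ineq (F := F) (b := 1 / 2) (t := t) (C := B) (p := 2) h0 (by norm_num) ?_ ?_ ?_
  · simp only [Real.rpow_two] at hmain
    have e1 : (((1 / 2 : ℝ) : ℂ) + Δ + t * I) = (((1 / 2 + Δ : ℝ) : ℂ) + t * I) := by push_cast; ring
    have hz1 : (((1 / 2 : ℝ) : ℂ) + Δ + t * I) ≠ 1 := by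
      intro h
      have := congrArg Complex.re h
      simp at this
      linarith
    have hre : (((1 / 2 : ℝ) : ℂ) + Δ + t * I).re = 1 / 2 + Δ := by simp
    have hlow : ((1 - 8 * Δ) ^ k * N ^ Δ / (1 + Δ) ^ (2 * M)) *
        ‖riemannZeta (((1 / 2 + Δ : ℝ) : ℂ) + t * I) ^ k -
          Q (((1 / 2 + Δ : ℝ) : ℂ) + t * I)‖ ≤
        ‖F (((1 / 2 : ℝ) : ℂ) + Δ + t * I)‖ := by
      rw [hFn, hZt _ (by rw [hre]; linarith) hz1, norm_mul, norm_pow, hre, ← e1]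
      have h3 := norm_ratio_ge (t := t) h0.le (by linarith : 8 * Δ ≤ 1)
      have h3' := pow_le_pow_left₀ (by linarith) h3 k
      have e2 : ‖1 + (((1 / 2 : ℝ) : ℂ) + Δ + t * I) - c‖ = 1 + Δ := by
        rw [hc, show 1 + (((1 / 2 : ℝ) : ℂ) + Δ + t * I) - (((1 / 2 : ℝ) : ℂ) + t * I) =
          ((1 + Δ : ℝ) : ℂ) by push_cast; ring, Complex.norm_real, Real.norm_of_nonneg (by linarith)]
      rw [e2, show (1 / 2 + Δ - 1 / 2) = Δ by ring, one_div (1 + Δ), inv_pow]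
      set X := ‖riemannZeta (((1 / 2 : ℝ) : ℂ) + Δ + t * I) ^ k -
        Q (((1 / 2 : ℝ) : ℂ) + Δ + t * I)‖ with hXd
      have hX : 0 ≤ X := norm_nonneg _
      have hY : 0 ≤ N ^ Δ * ((1 + Δ) ^ (2 * M))⁻¹ := by positivity
      calc ((1 - 8 * Δ) ^ k * N ^ Δ / (1 + Δ) ^ (2 * M)) * X =
            (1 - 8 * Δ) ^ k * (X * (N ^ Δ * ((1 + Δ) ^ (2 * M))⁻¹)) := by
              rw [div_eq_mul_inv]; ring
        _ ≤ ‖(((1 / 2 : ℝ) : ℂ) + Δ + t * I - 1) / (((1 / 2 : ℝ) : ℂ) + Δ + t * I)‖ ^ k *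
            (X * (N ^ Δ * ((1 + Δ) ^ (2 * M))⁻¹)) :=
              mul_le_mul_of_nonneg_right h3' (mul_nonneg hX hY)
        _ = _ := by ring
    have hlow2 : 0 ≤ (1 - 8 * Δ) ^ k * N ^ Δ / (1 + Δ) ^ (2 * M) := by
      have : 0 ≤ 1 - 8 * Δ := by linarith
      positivity
    rw [← mul_pow]
    refine (pow_le_pow_left₀ (mul_nonneg hlow2 (norm_nonneg _)) hlow 2).trans ?_
    refine hmain.trans (le_of_eq ?_)
    refine integral_congr_ae (Filter.Eventually.of_forall fun w => ?_)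
    beta_reduce
    have r1 : (((1 / 2 : ℝ) : ℂ) + ((t + w : ℝ) : ℂ) * I).re = 1 / 2 := by simp
    have hz2 : (((1 / 2 : ℝ) : ℂ) + ((t + w : ℝ) : ℂ) * I) ≠ 1 := by
      intro h
      have := congrArg Complex.re h
      rw [r1] at this
      norm_num at this
    rw [hFn, hZt _ (by rw [r1]; norm_num) hz2, norm_mul, norm_pow, r1,
      norm_ratio_half, sub_self, Real.rpow_zero, mul_one, one_pow, one_mul]
    have e3 : ‖1 + (((1 / 2 : ℝ) : ℂ) + ((t + w : ℝ) : ℂ) * I) - c‖ ^ 2 = 1 + w ^ 2 := by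
      rw [hc, show 1 + (((1 / 2 : ℝ) : ℂ) + ((t + w : ℝ) : ℂ) * I) - (((1 / 2 : ℝ) : ℂ) + t * I) =
        1 + (w : ℂ) * I by push_cast; ring, Complex.sq_norm, Complex.normSq_apply]
      simp
      ring
    have e5 : (1 / ‖1 + (((1 / 2 : ℝ) : ℂ) + ((t + w : ℝ) : ℂ) * I) - c‖) ^ 2 = (1 + w ^ 2)⁻¹ := by
      rw [div_pow, one_pow, e3, one_div]
    have e6 : ((1 / ‖1 + (((1 / 2 : ℝ) : ℂ) + ((t + w : ℝ) : ℂ) * I) - c‖) ^ (2 * M)) ^ 2 =
        ((1 + w ^ 2)⁻¹) ^ (2 * M) := by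
      rw [← pow_mul, mul_comm (2 * M) 2, pow_mul, e5]
    rw [mul_pow, e6]
    ring
  · intro z hz
    have hz' : (1:ℝ) / 2 < z.re := hz
    exact (hFd z (by linarith)).differentiableWithinAt
  · intro z hz
    have hz' : (1:ℝ) / 2 ≤ z.re := hz
    exact (hFd z (by linarith)).continuousAt.continuousWithinAt
  · intro z hz
    have hz' : (1:ℝ) / 2 < z.re := hz
    exact hb z hz'.le

/-- `|ζ^k - Q|^2` on the line `Re s = σ` -/
noncomputable def qd (k : ℕ) (Q : ℂ → ℂ) (σ t : ℝ) : ℝ :=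
  ‖riemannZeta ((σ : ℂ) + t * Complex.I) ^ k - Q ((σ : ℂ) + t * Complex.I)‖ ^ 2

lemma qd_nonneg (k : ℕ) (Q : ℂ → ℂ) (σ t : ℝ) : 0 ≤ qd k Q σ t := by unfold qd; positivity

lemma zline_cont {σ : ℝ} (hσ : σ < 1) : Continuous fun t : ℝ => riemannZeta ((σ : ℂ) + t * Complex.I) := by
  rw [continuous_iff_continuousAt]
  intro t
  have h1 : ContinuousAt riemannZeta ((σ : ℂ) + t * I) := (zeta_diffAt (by simpa using hσ)).continuousAt
  exact ContinuousAt.comp (f := fun t : ℝ => (σ : ℂ) + t * I) h1 (by fun_prop)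

lemma qd_cont {k : ℕ} {Q : ℂ → ℂ} (hQ : Differentiable ℂ Q) {σ : ℝ} (hσ : σ < 1) :
    Continuous (qd k Q σ) := by
  unfold qd
  have h1 : Continuous fun t : ℝ => (σ : ℂ) + t * Complex.I := by fun_prop
  exact ((((zline_cont hσ).pow k).sub (hQ.continuous.comp h1)).norm).pow 2

lemma qd_grow {k : ℕ} {Q : ℂ → ℂ} {C1 : ℝ} (hQ1 : ∀ z : ℂ, 1 / 2 ≤ z.re → ‖Q z‖ ≤ C1) (x : ℝ) :
    qd k Q (1 / 2) x ≤ (2 * (288 ^ k + C1 ^ 2)) * (1 + x ^ 2) ^ k := by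
  have hC1 : 0 ≤ C1 := (norm_nonneg _).trans (hQ1 1 (by norm_num))
  have h1 : ‖riemannZeta (((1 / 2 : ℝ) : ℂ) + x * Complex.I)‖ ≤ 12 * (1 + |x|) :=
    zn_le' (σ := 1 / 2) (t := x) (by norm_num) (by norm_num)
  have h2 : ‖riemannZeta (((1 / 2 : ℝ) : ℂ) + x * Complex.I) ^ k‖ ^ 2 ≤ 288 ^ k * (1 + x ^ 2) ^ k := by
    have h3 := pow_le_pow_left₀ (norm_nonneg _) h1 2
    have h4 : (1 + |x|) ^ 2 ≤ 2 * (1 + x ^ 2) := by nlinarith [sq_nonneg (1 - |x|), sq_abs x]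
    have h5 : ‖riemannZeta (((1 / 2 : ℝ) : ℂ) + x * Complex.I)‖ ^ 2 ≤ 288 * (1 + x ^ 2) := by nlinarith
    have h6 := pow_le_pow_left₀ (by positivity) h5 k
    rw [norm_pow, ← pow_mul, mul_comm k 2, pow_mul]
    exact h6.trans (le_of_eq (mul_pow _ _ _))
  have h5 : ‖Q (((1 / 2 : ℝ) : ℂ) + x * Complex.I)‖ ^ 2 ≤ C1 ^ 2 * (1 + x ^ 2) ^ k := by
    have h6 := pow_le_pow_left₀ (norm_nonneg _) (hQ1 (((1 / 2 : ℝ) : ℂ) + x * Complex.I) (by simp)) 2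
    have h7 : 1 ≤ (1 + x ^ 2) ^ k := one_le_pow₀ (by nlinarith [sq_nonneg x])
    nlinarith [sq_nonneg C1]
  unfold qd
  set a := riemannZeta (((1 / 2 : ℝ) : ℂ) + x * Complex.I) ^ k
  set b := Q (((1 / 2 : ℝ) : ℂ) + x * Complex.I)
  have h8 := norm_sub_le a b
  have h9 : ‖a - b‖ ^ 2 ≤ 2 * ‖a‖ ^ 2 + 2 * ‖b‖ ^ 2 := by
    have := pow_le_pow_left₀ (norm_nonneg _) h8 2
    nlinarith [sq_nonneg (‖a‖ - ‖b‖)]
  linarith

/-- integrated form over a window -/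
theorem hp_wink {Q : ℂ → ℂ} {N C1 C2 Δ T : ℝ} {k M : ℕ} (hN : 1 ≤ N) (hkM : k + 1 ≤ 2 * M) (hM : k ≤ M)
    (hQd : Differentiable ℂ Q) (hQ1 : ∀ z : ℂ, 1 / 2 ≤ z.re → ‖Q z‖ ≤ C1)
    (hQ2 : ∀ z : ℂ, 2 ≤ z.re → ‖riemannZeta z ^ k - Q z‖ * N ^ z.re ≤ C2)
    (h0 : 0 < Δ) (h1 : Δ ≤ 1 / 8) (hT : 1 ≤ T) :
    ((1 - 8 * Δ) ^ k * N ^ Δ / (1 + Δ) ^ (2 * M)) ^ 2 * ∫ t in (0:ℝ)..T, qd k Q (1 / 2 + Δ) t ≤
      (∫ t in (-T)..(2 * T), qd k Q (1 / 2) t) +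
      T * ((2 * (288 ^ k + C1 ^ 2)) * (4 * T ^ 2) ^ k) *
        (Real.pi * (1 / Δ) * (T ^ (2 * (2 * M - k - 1)))⁻¹) := by
  set K : ℝ → ℝ := fun w => KP Δ w * ((1 + w ^ 2)⁻¹) ^ (2 * M) with hKe
  have hKc : Continuous K := by
    rw [hKe]
    refine (KP_cont h0).mul ?_
    have hc : Continuous fun w : ℝ => (1 + w ^ 2)⁻¹ := by
      refine Continuous.inv₀ (by fun_prop) fun w => ?_
      have : (0:ℝ) < 1 + w ^ 2 := by positivity
      exact this.ne'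
    exact hc.pow _
  have hpw : ∀ w : ℝ, ((1 + w ^ 2)⁻¹) ^ (2 * M) ≤ 1 := fun w =>
    pow_le_one₀ (by positivity) (by rw [inv_le_one_iff₀]; right; nlinarith [sq_nonneg w])
  have hK0 : ∀ w, 0 ≤ K w := by
    intro w
    rw [hKe]
    exact mul_nonneg (KP_nonneg h0 w) (by positivity)
  have hKb : ∀ w, K w ≤ (1 / Δ) * ((1 + w ^ 2)⁻¹) ^ (2 * M) := by
    intro w
    rw [hKe]
    exact mul_le_mul_of_nonneg_right (KP_le h0 w) (by positivity)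
  obtain ⟨j1, j2⟩ := KP_int h0
  have hKm : ∫ w, K w ≤ 1 := by
    rw [← j2]
    refine integral_mono_of_nonneg (Eventually.of_forall hK0) j1 (Eventually.of_forall fun w => ?_)
    simp only [hKe]
    exact mul_le_of_le_one_right (KP_nonneg h0 w) (hpw w)
  have hc0 := qd_cont (k := k) hQd (σ := 1 / 2) (by norm_num)
  have hc1 := qd_cont (k := k) hQd (σ := 1 / 2 + Δ) (by linarith)
  have hC1 : 0 ≤ C1 := (norm_nonneg _).trans (hQ1 1 (by norm_num))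
  have hmain := win (K := K) (G := fun x => qd k Q (1 / 2) x)
    (H := fun t => ((1 - 8 * Δ) ^ k * N ^ Δ / (1 + Δ) ^ (2 * M)) ^ 2 * qd k Q (1 / 2 + Δ) t)
    (T := T) (A := 1 / Δ) (B := 2 * (288 ^ k + C1 ^ 2)) (κ := 1) (k := k) (m := 2 * M)
    hT (by positivity) (by positivity) hkM hKc hK0 hKb hKm hc0 (fun x => qd_nonneg _ _ _ _)
    (fun x => qd_grow hQ1 x) (continuous_const.mul hc1)
    (fun t _ => half_ptk (t := t) hN hM hQd hQ1 hQ2 h0 h1)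
  rw [intervalIntegral.integral_const_mul, one_mul] at hmain
  exact hmain

end Pool.Agent.J4H26.EQ
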