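import Pool.Agent.J4H26.EQ.Path

set_option autoImplicit false

/-! The implications between the statements. -/

namespace Pool.Agent.J4H26.EQ

open MeasureTheory Filter Topology Complex Pool.Agent.H306R2 Pool.Agent.W184

variable {k : ℕ} {X : ℝ → ℝ}

/-- `y^n e^{-b y}` tends to zero -/
lemma pow_exp (n : ℕ) {b : ℝ} (hb : 0 < b) : Tendsto (fun y : ℝ => y ^ n * Real.exp (-(b * y))) atTop (𝓝 0) := by
  have h := (Real.tendsto_pow_mul_exp_neg_atTop_nhds_zero n).comp (tendsto_id.const_mul_atTop hb)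
  have h2 := h.const_mul ((b ^ n)⁻¹)
  rw [mul_zero] at h2
  refine h2.congr fun y => ?_
  simp only [Function.comp, id]
  rw [mul_pow]
  field_simp

/-- a path: `δ → 0`, `δ log T / X → ∞` -/
structure Pth (X δ : ℝ → ℝ) : Prop where
  z : Tendsto δ atTop (𝓝 0)
  inf : Tendsto (fun T => δ T * Real.log T / X T) atTop atTop

lemma Pth.y {δ : ℝ → ℝ} (hX1 : ∀ T, 1 ≤ X T) (h : Pth X δ) : Tendsto (fun T => δ T * Real.log T) atTop atTop := by
  refine tendsto_atTop_mono' atTop ?_ h.inf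
  filter_upwards [h.inf.eventually_ge_atTop 0] with T hT
  have h1 := hX1 T
  calc δ T * Real.log T / X T ≤ δ T * Real.log T / X T * X T := le_mul_of_one_le_right hT h1
    _ = δ T * Real.log T := by field_simp

lemma Pth.pos {δ : ℝ → ℝ} (hX1 : ∀ T, 1 ≤ X T) (h : Pth X δ) : ∀ᶠ T in atTop, 1 / Real.log T ≤ δ T ∧ 0 < δ T := by
  filter_upwards [(h.y hX1).eventually_ge_atTop 1, Real.tendsto_log_atTop.eventually_gt_atTop 0] with T hT hL
  have h1 : 1 / Real.log T ≤ δ T := by rw [div_le_iff₀ hL]; exact hT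
  exact ⟨h1, lt_of_lt_of_le (by positivity) h1⟩

/-- the Dirichlet polynomials along a path -/
theorem L2 (hk : 1 ≤ k) (hX1 : ∀ T, 1 ≤ X T) (hX2 : ∃ D : ℝ, ∀ᶠ T in atTop, X (2 * T) ≤ D * X T)
    (H : ∃ C : ℝ, ∀ᶠ T in atTop, MZ k 0 T ≤ Real.exp (C * X T) * Real.log T ^ (k ^ 2))
    {ε : ℝ} (h0 : 0 < ε) (h1 : ε < 1) {δ : ℝ → ℝ} (hδ : Pth X δ) :
    Tendsto (fun T => (2 * δ T) ^ (k ^ 2) * EZ k ε (δ T) T) atTop (𝓝 0) := by
  obtain ⟨C, hC, hL1⟩ := L1 hk hX1 hX2 H h0 h1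
  have hy := hδ.y hX1
  have hlim : Tendsto (fun T => (C * 2 ^ (k ^ 2)) * ((δ T * Real.log T) ^ (k ^ 2) *
      Real.exp (-(ε * (δ T * Real.log T))))) atTop (𝓝 0) := by
    have := ((pow_exp (k ^ 2) h0).comp hy).const_mul (C * 2 ^ (k ^ 2))
    rw [mul_zero] at this
    exact this
  refine squeeze_zero' ?_ ?_ hlim
  · filter_upwards [hδ.pos hX1, eventually_gt_atTop (0:ℝ)] with T hT hT0
    have := EZ_nonneg k ε (δ T) hT0
    have := hT.2
    positivity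
  · filter_upwards [hL1, hδ.pos hX1, hδ.z.eventually_le_const (show (0:ℝ) < 1 / 16 by norm_num),
      hδ.inf.eventually_ge_atTop (C / ε), Real.tendsto_log_atTop.eventually_gt_atTop 0] with T hT hp hs hi hL
    have h2 := hT (δ T) hp.1 hs
    have hXT := hX1 T
    have h3 : C * X T ≤ ε * (δ T * Real.log T) := by
      rw [div_le_iff₀ h0] at hi
      have h4 := mul_le_mul_of_nonneg_right hi (show 0 ≤ X T by linarith)
      calc C * X T ≤ δ T * Real.log T / X T * ε * X T := h4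
        _ = _ := by field_simp
    have h5 : Real.exp (C * X T) * Real.exp (-(2 * ε * δ T * Real.log T)) ≤
        Real.exp (-(ε * (δ T * Real.log T))) := by
      rw [← Real.exp_add]
      exact Real.exp_le_exp.mpr (by linarith)
    have hδ0 := hp.2
    calc (2 * δ T) ^ (k ^ 2) * EZ k ε (δ T) T ≤ (2 * δ T) ^ (k ^ 2) *
        (C * Real.exp (C * X T) * Real.exp (-(2 * ε * δ T * Real.log T)) * Real.log T ^ (k ^ 2)) := by gcongr
      _ = (2 * δ T) ^ (k ^ 2) * (C * (Real.exp (C * X T) * Real.exp (-(2 * ε * δ T * Real.log T))) *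
          Real.log T ^ (k ^ 2)) := by ring
      _ ≤ (2 * δ T) ^ (k ^ 2) * (C * Real.exp (-(ε * (δ T * Real.log T))) * Real.log T ^ (k ^ 2)) := by gcongr
      _ = _ := by rw [mul_pow, mul_pow]; ring

/-- comparison of the mean square of the polynomial with the full series -/
theorem BZ_SS (hk : 1 ≤ k) {ε : ℝ} (h0 : 0 < ε) (h1 : ε < 1) : ∃ C : ℝ, 0 < C ∧ ∀ η : ℝ, 0 < η →
    ∀ᶠ T in atTop, ∀ Δ : ℝ, 0 < Δ → Δ ≤ 1 / 2 →
    |BZ k ε Δ T - SS k (2 * Δ)| ≤ (η + C * Real.exp (-(ε * Δ * Real.log T))) * SS k (2 * Δ) := by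
  obtain ⟨c, hc, hlow⟩ := SS_low hk
  obtain ⟨Cs, hCs, hup⟩ := SS_up hk
  refine ⟨2 * (2 ^ (k ^ 2) * Cs / c), by positivity, fun η hη => ?_⟩
  filter_upwards [len h0 h1 (show 0 < η / 4 by positivity), eventually_gt_atTop (0:ℝ)] with T hlen hT0
  intro Δ hΔ0 hΔ1
  obtain ⟨hN3, hNT, hNl, hNp⟩ := hlen
  set N := ⌊T ^ ε⌋₊ with hN
  have a1 := mv_dd k Δ N 0 T
  rw [sub_zero] at a1
  have hS0 := SS_nonneg k (2 * Δ)
  have hPS := PS_le_SS k N (show 0 < 2 * Δ by positivity)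
  have hP0 := PS_nonneg k (2 * Δ) N
  have hNn : (0:ℝ) ≤ N * (1 + Real.log N) := by
    have := Real.log_nonneg (show (1:ℝ) ≤ N by exact_mod_cast (by omega : 1 ≤ N))
    positivity
  have a2 : |BZ k ε Δ T - PS k (2 * Δ) N| ≤ η * SS k (2 * Δ) := by
    unfold BZ
    rw [← hN]
    set I := ∫ t in (0:ℝ)..T, ‖DS (dd k) N (((1 / 2 + Δ : ℝ) : ℂ) + t * Complex.I)‖ ^ 2
    have e : 1 / T * I - PS k (2 * Δ) N = 1 / T * (I - T * PS k (2 * Δ) N) := by field_simp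
    rw [e, abs_mul, abs_of_pos (by positivity : 0 < 1 / T), one_div, inv_mul_le_iff₀ hT0]
    refine a1.trans ?_
    calc 4 * N * (1 + Real.log N) * PS k (2 * Δ) N = 4 * (N * (1 + Real.log N)) * PS k (2 * Δ) N := by ring
      _ ≤ 4 * (η / 4 * T) * SS k (2 * Δ) := by gcongr
      _ = _ := by ring
  have a3 := tail_le k (N := N) (by omega) (show 0 < 2 * Δ by positivity)
  rw [show 2 * Δ / 2 = Δ by ring] at a3
  have a4 := hNp Δ hΔ0.le (by linarith)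
  have a5 : SS k Δ ≤ (2 ^ (k ^ 2) * Cs / c) * SS k (2 * Δ) := by
    have b1 := hup Δ hΔ0 (by linarith)
    have b2 := hlow (2 * Δ) (by positivity) (by linarith)
    rw [mul_pow] at b2
    have hp : 0 < Δ ^ (k ^ 2) := by positivity
    have b3 : Δ ^ (k ^ 2) * SS k Δ ≤ Δ ^ (k ^ 2) * ((2 ^ (k ^ 2) * Cs / c) * SS k (2 * Δ)) := by
      calc Δ ^ (k ^ 2) * SS k Δ ≤ Cs := b1
        _ = Cs / c * c := by field_simp
        _ ≤ Cs / c * (2 ^ (k ^ 2) * Δ ^ (k ^ 2) * SS k (2 * Δ)) := by gcongr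
        _ = _ := by ring
    exact le_of_mul_le_mul_left b3 hp
  have a6 : |PS k (2 * Δ) N - SS k (2 * Δ)| ≤
      2 * (2 ^ (k ^ 2) * Cs / c) * Real.exp (-(ε * Δ * Real.log T)) * SS k (2 * Δ) := by
    rw [abs_sub_comm, abs_of_nonneg (by linarith)]
    refine a3.trans ?_
    have hSΔ := SS_nonneg k Δ
    calc (N:ℝ) ^ (-Δ) * SS k Δ ≤ (2 * Real.exp (-(ε * Δ * Real.log T))) *
        ((2 ^ (k ^ 2) * Cs / c) * SS k (2 * Δ)) := mul_le_mul a4 a5 hSΔ (by positivity)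
      _ = _ := by ring
  calc |BZ k ε Δ T - SS k (2 * Δ)| ≤ |BZ k ε Δ T - PS k (2 * Δ) N| + |PS k (2 * Δ) N - SS k (2 * Δ)| :=
        abs_sub_le _ _ _
    _ ≤ _ := by linarith

lemma SS_path (hk : 1 ≤ k) (hX1 : ∀ T, 1 ≤ X T) {δ : ℝ → ℝ} (hδ : Pth X δ) :
    Tendsto (fun T => (2 * δ T) ^ (k ^ 2) * SS k (2 * δ T)) atTop (𝓝 (aF k)) := by
  refine (SS_tendsto hk).comp ?_
  rw [tendsto_nhdsWithin_iff]
  constructor
  · have := hδ.z.const_mul 2
    rwa [mul_zero] at this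
  · filter_upwards [hδ.pos hX1] with T hT
    have := hT.2
    show 0 < 2 * δ T
    positivity

theorem BZ_path (hk : 1 ≤ k) (hX1 : ∀ T, 1 ≤ X T) {ε : ℝ} (h0 : 0 < ε) (h1 : ε < 1) {δ : ℝ → ℝ} (hδ : Pth X δ) :
    Tendsto (fun T => (2 * δ T) ^ (k ^ 2) * BZ k ε (δ T) T) atTop (𝓝 (aF k)) := by
  obtain ⟨C, hC, hB⟩ := BZ_SS hk h0 h1
  have hS := SS_path hk hX1 hδ
  have hexp : Tendsto (fun T => C * Real.exp (-(ε * δ T * Real.log T))) atTop (𝓝 0) := by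
    have h2 := (pow_exp 0 h0).comp (hδ.y hX1)
    have h3 := h2.const_mul C
    rw [mul_zero] at h3
    refine h3.congr fun T => ?_
    simp only [Function.comp, pow_zero, one_mul, mul_assoc]
  rw [Metric.tendsto_nhds]
  intro e he
  have hk0 : (0:ℝ) < k := by exact_mod_cast hk
  have ha := aF_pos hk0
  -- choose eta
  set η := e / (4 * (aF k + 1)) with hη
  have hη0 : 0 < η := by positivity
  filter_upwards [hB η hη0, hS.eventually (Metric.ball_mem_nhds _ (show 0 < min (e / 4) 1 by positivity)),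
    hexp.eventually (Metric.ball_mem_nhds _ hη0), hδ.pos hX1,
    hδ.z.eventually_le_const (show (0:ℝ) < 1 / 2 by norm_num)] with T h2 h3 h4 h5 h6
  have h7 := h2 (δ T) h5.2 h6
  rw [Real.dist_eq] at h3 h4
  rw [sub_zero] at h4
  rw [Real.dist_eq]
  have hp : 0 < (2 * δ T) ^ (k ^ 2) := by have := h5.2; positivity
  have h8 := (abs_lt.mp h4).2
  have h9 : |(2 * δ T) ^ (k ^ 2) * BZ k ε (δ T) T - (2 * δ T) ^ (k ^ 2) * SS k (2 * δ T)| ≤
      (2 * η) * ((2 * δ T) ^ (k ^ 2) * SS k (2 * δ T)) := by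
    rw [← mul_sub, abs_mul, abs_of_pos hp]
    have hS0 := SS_nonneg k (2 * δ T)
    calc (2 * δ T) ^ (k ^ 2) * |BZ k ε (δ T) T - SS k (2 * δ T)| ≤
        (2 * δ T) ^ (k ^ 2) * ((η + C * Real.exp (-(ε * δ T * Real.log T))) * SS k (2 * δ T)) := by gcongr
      _ ≤ (2 * δ T) ^ (k ^ 2) * ((η + η) * SS k (2 * δ T)) := by gcongr
      _ = _ := by ring
  have h10 : (2 * δ T) ^ (k ^ 2) * SS k (2 * δ T) ≤ aF k + 1 := by
    have := (abs_lt.mp h3).2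
    have := min_le_right (e / 4) 1
    linarith
  have h11 : (2 * η) * ((2 * δ T) ^ (k ^ 2) * SS k (2 * δ T)) ≤ e / 2 := by
    calc (2 * η) * ((2 * δ T) ^ (k ^ 2) * SS k (2 * δ T)) ≤ (2 * η) * (aF k + 1) := by gcongr
      _ = e / 2 := by rw [hη]; field_simp; ring
  have h12 : |(2 * δ T) ^ (k ^ 2) * SS k (2 * δ T) - aF k| < e / 4 := lt_of_lt_of_le h3 (min_le_left _ _)
  calc |(2 * δ T) ^ (k ^ 2) * BZ k ε (δ T) T - aF k| ≤
      |(2 * δ T) ^ (k ^ 2) * BZ k ε (δ T) T - (2 * δ T) ^ (k ^ 2) * SS k (2 * δ T)| +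
      |(2 * δ T) ^ (k ^ 2) * SS k (2 * δ T) - aF k| := abs_sub_le _ _ _
    _ < e := by linarith

/-- short polynomials give the asymptotic formula -/
theorem L4 (hk : 1 ≤ k) (hX1 : ∀ T, 1 ≤ X T) {ε : ℝ} (h0 : 0 < ε) (h1 : ε < 1) {δ : ℝ → ℝ} (hδ : Pth X δ)
    (hE : Tendsto (fun T => (2 * δ T) ^ (k ^ 2) * EZ k ε (δ T) T) atTop (𝓝 0)) :
    Tendsto (fun T => (2 * δ T) ^ (k ^ 2) * MZ k (δ T) T) atTop (𝓝 (aF k)) := by
  have hB := BZ_path hk hX1 h0 h1 hδ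
  have hk0 : (0:ℝ) < k := by exact_mod_cast hk
  have ha := aF_pos hk0
  rw [Metric.tendsto_nhds]
  intro e he
  set η := e / (4 * (aF k + 1)) with hη
  have hη0 : 0 < η := by positivity
  set ρ := e / (4 * (1 + 1 / η)) with hρ
  have hρ0 : 0 < ρ := by positivity
  filter_upwards [hB.eventually (Metric.ball_mem_nhds _ (show 0 < min (e / 4) 1 by positivity)),
    hE.eventually (Metric.ball_mem_nhds _ hρ0), hδ.pos hX1, eventually_gt_atTop (0:ℝ),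
    hδ.z.eventually_lt_const (show (0:ℝ) < 1 / 2 by norm_num)] with T h3 h4 h5 hT0 h6
  rw [Real.dist_eq] at h3 h4
  rw [sub_zero] at h4
  rw [Real.dist_eq]
  have hp : 0 < (2 * δ T) ^ (k ^ 2) := by have := h5.2; positivity
  have h7 := MZ_BZ k ε hT0 hη0 h6
  have h8 := (abs_lt.mp h4).2
  have h9 : |(2 * δ T) ^ (k ^ 2) * MZ k (δ T) T - (2 * δ T) ^ (k ^ 2) * BZ k ε (δ T) T| ≤
      η * ((2 * δ T) ^ (k ^ 2) * BZ k ε (δ T) T) + (1 + 1 / η) * ((2 * δ T) ^ (k ^ 2) * EZ k ε (δ T) T) := by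
    rw [← mul_sub, abs_mul, abs_of_pos hp]
    calc (2 * δ T) ^ (k ^ 2) * |MZ k (δ T) T - BZ k ε (δ T) T| ≤
        (2 * δ T) ^ (k ^ 2) * (η * BZ k ε (δ T) T + (1 + 1 / η) * EZ k ε (δ T) T) := by gcongr
      _ = _ := by ring
  have h10 : (2 * δ T) ^ (k ^ 2) * BZ k ε (δ T) T ≤ aF k + 1 := by
    have := (abs_lt.mp h3).2
    have := min_le_right (e / 4) 1
    linarith
  have h11 : η * ((2 * δ T) ^ (k ^ 2) * BZ k ε (δ T) T) ≤ e / 4 := by
    calc η * ((2 * δ T) ^ (k ^ 2) * BZ k ε (δ T) T) ≤ η * (aF k + 1) := by gcongr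
      _ = e / 4 := by rw [hη]; field_simp
  have h12 : (1 + 1 / η) * ((2 * δ T) ^ (k ^ 2) * EZ k ε (δ T) T) ≤ e / 4 := by
    calc (1 + 1 / η) * ((2 * δ T) ^ (k ^ 2) * EZ k ε (δ T) T) ≤ (1 + 1 / η) * ρ := by gcongr
      _ = e / 4 := by rw [hρ]; field_simp
  have h13 : |(2 * δ T) ^ (k ^ 2) * BZ k ε (δ T) T - aF k| < e / 4 := lt_of_lt_of_le h3 (min_le_left _ _)
  calc |(2 * δ T) ^ (k ^ 2) * MZ k (δ T) T - aF k| ≤
      |(2 * δ T) ^ (k ^ 2) * MZ k (δ T) T - (2 * δ T) ^ (k ^ 2) * BZ k ε (δ T) T| +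
      |(2 * δ T) ^ (k ^ 2) * BZ k ε (δ T) T - aF k| := abs_sub_le _ _ _
    _ < e := by linarith

end Pool.Agent.J4H26.EQ
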