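import Pool.Agent.J4H26.EQ.Imp

set_option autoImplicit false

/-! The implications between the statements, continued. -/

namespace Pool.Agent.J4H26.EQ

open MeasureTheory Filter Topology Complex Pool.Agent.H306R2 Pool.Agent.W184

variable {k : ℕ} {X : ℝ → ℝ}

/-- the asymptotic formula along all paths gives an upper bound at one distance -/
theorem L5 (hk : 1 ≤ k) (hX1 : ∀ T, 1 ≤ X T) (hX3 : Tendsto (fun T => X T / Real.log T) atTop (𝓝 0))
    (H : ∀ δ : ℝ → ℝ, Pth X δ → Tendsto (fun T => (2 * δ T) ^ (k ^ 2) * MZ k (δ T) T) atTop (𝓝 (aF k))) :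
    ∃ C : ℝ, 0 < C ∧ ∀ᶠ T in atTop, MZ k (C * X T / Real.log T) T ≤
      Real.exp (C * X T) * Real.log T ^ (k ^ 2) := by
  by_contra hcon
  push Not at hcon
  have hk0 : (0:ℝ) < k := by exact_mod_cast hk
  have ha := aF_pos hk0
  have hX0 : ∀ T, 0 < X T := fun T => by have := hX1 T; linarith
  -- bad heights
  have hbad : ∀ n : ℕ, ∃ T : ℝ, (n:ℝ) ≤ T ∧ 1 ≤ Real.log T ∧ X T / Real.log T ≤ 1 / ((n:ℝ) + 1) ^ 2 ∧
      Real.exp (((n:ℝ) + 1) * X T) * Real.log T ^ (k ^ 2) < MZ k (((n:ℝ) + 1) * X T / Real.log T) T := by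
    intro n
    have h1 := hcon ((n:ℝ) + 1) (by positivity)
    have h2 : ∀ᶠ T : ℝ in atTop, (n:ℝ) ≤ T ∧ 1 ≤ Real.log T ∧ X T / Real.log T ≤ 1 / ((n:ℝ) + 1) ^ 2 := by
      filter_upwards [eventually_ge_atTop (n:ℝ), Real.tendsto_log_atTop.eventually_ge_atTop 1,
        hX3.eventually_le_const (show (0:ℝ) < 1 / ((n:ℝ) + 1) ^ 2 by positivity)] with T a b c
      exact ⟨a, b, c⟩
    obtain ⟨T, hT1, hT2⟩ := (h1.and_eventually h2).exists
    exact ⟨T, hT2.1, hT2.2.1, hT2.2.2, hT1⟩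
  choose τ hτ1 hτ2 hτ3 hτ4 using hbad
  classical
  -- the path
  set δ : ℝ → ℝ := fun T => if ∃ n : ℕ, τ n = T then
    ((sInf {n : ℕ | τ n = T} : ℕ) + 1 : ℝ) * X T / Real.log T else Real.sqrt (X T / Real.log T) with hδ
  have hidx : ∀ T, (∃ n : ℕ, τ n = T) → τ (sInf {n : ℕ | τ n = T}) = T := fun T h => Nat.sInf_mem (s := {n : ℕ | τ n = T}) h
  have hlarge : ∀ m : ℕ, ∀ᶠ T in atTop, (∃ n : ℕ, τ n = T) → m < sInf {n : ℕ | τ n = T} := by
    intro m
    have h1 : ∀ᶠ T : ℝ in atTop, ∀ j ∈ Finset.range (m + 1), τ j < T := by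
      rw [Filter.eventually_all_finset]
      intro j _
      exact eventually_gt_atTop (τ j)
    filter_upwards [h1] with T hT hex
    by_contra hc
    push Not at hc
    have h2 := hidx T hex
    have h3 := hT _ (Finset.mem_range.mpr (Nat.lt_succ_of_le hc))
    linarith
  have hrt : Tendsto (fun T => Real.sqrt (X T / Real.log T)) atTop (𝓝 0) := by
    have := (Real.continuous_sqrt.tendsto 0).comp hX3
    rwa [Real.sqrt_zero] at this
  have hP : Pth X δ := by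
    constructor
    · rw [Metric.tendsto_nhds]
      intro e he
      obtain ⟨m, hm⟩ := exists_nat_one_div_lt he
      filter_upwards [hlarge m, hrt.eventually (Metric.ball_mem_nhds _ he),
        Real.tendsto_log_atTop.eventually_gt_atTop 0] with T h1 h2 h3
      rw [Real.dist_eq, sub_zero] at h2 ⊢
      simp only [hδ]
      split_ifs with hex
      · set i := sInf {n : ℕ | τ n = T} with hi
        have h4 := hidx T hex
        have h5 := hτ3 i
        rw [← hi] at h4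
        rw [h4] at h5
        have h6 := h1 hex
        have h7 : ((i:ℝ) + 1) * X T / Real.log T = ((i:ℝ) + 1) * (X T / Real.log T) := by ring
        have h8 : 0 ≤ ((i:ℝ) + 1) * (X T / Real.log T) := by have := (hX0 T).le; positivity
        rw [h7, abs_of_nonneg h8]
        have h9 : (m:ℝ) < i := by exact_mod_cast h6
        calc ((i:ℝ) + 1) * (X T / Real.log T) ≤ ((i:ℝ) + 1) * (1 / ((i:ℝ) + 1) ^ 2) := by gcongr
          _ = 1 / ((i:ℝ) + 1) := by field_simp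
          _ ≤ 1 / ((m:ℝ) + 1) := one_div_le_one_div_of_le (by positivity) (by linarith)
          _ < e := hm
      · exact h2
    · rw [tendsto_atTop]
      intro b
      obtain ⟨m, hm⟩ := exists_nat_ge b
      have hX4 : ∀ᶠ T in atTop, Real.sqrt (X T / Real.log T) < 1 / (|b| + 1) :=
        hrt.eventually_lt_const (by positivity)
      filter_upwards [hlarge m, hX4, Real.tendsto_log_atTop.eventually_gt_atTop 0] with T h1 h2 h3
      have hXT := hX0 T
      simp only [hδ]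
      split_ifs with hex
      · set i := sInf {n : ℕ | τ n = T} with hi
        have h6 := h1 hex
        have h9 : (m:ℝ) < i := by exact_mod_cast h6
        have e1 : ((i:ℝ) + 1) * X T / Real.log T * Real.log T / X T = (i:ℝ) + 1 := by field_simp
        rw [e1]
        linarith
      · set s := Real.sqrt (X T / Real.log T) with hs
        have hs0 : 0 < s := Real.sqrt_pos.mpr (by positivity)
        have hs2 : s * s = X T / Real.log T := Real.mul_self_sqrt (by positivity)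
        have e1 : s * Real.log T / X T = 1 / s := by
          rw [div_eq_div_iff hXT.ne' hs0.ne']
          calc s * Real.log T * s = s * s * Real.log T := by ring
            _ = 1 * X T := by rw [hs2]; field_simp
        rw [e1]
        have h10 : |b| + 1 ≤ 1 / s := by
          rw [le_div_iff₀ hs0]
          rw [lt_div_iff₀ (by positivity)] at h2
          linarith
        linarith [le_abs_self b]
  have hlim := H δ hP
  have hτ : Tendsto τ atTop atTop := tendsto_atTop_mono hτ1 tendsto_natCast_atTop_atTop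
  obtain ⟨m, hm⟩ := exists_nat_ge (aF k + 1)
  have hev := ((hlim.eventually_lt_const (show aF k < aF k + 1 by linarith)).and (hlarge m))
  obtain ⟨n, hn1, hn2⟩ := (hτ.eventually hev).exists
  set T := τ n with hT
  have hex : ∃ j : ℕ, τ j = T := ⟨n, rfl⟩
  have h3 := hn2 hex
  have h4 := hidx T hex
  set i := sInf {n : ℕ | τ n = T} with hi
  have h5 := hτ4 i
  have h6 := hτ2 i
  rw [h4] at h5 h6
  have hδT : δ T = ((i:ℝ) + 1) * X T / Real.log T := by
    simp only [hδ]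
    rw [if_pos hex]
  rw [hδT] at hn1
  have hL0 : 0 < Real.log T := by linarith
  have hXT := hX1 T
  have h7 : (2 * (((i:ℝ) + 1) * X T / Real.log T)) ^ (k ^ 2) *
      (Real.exp (((i:ℝ) + 1) * X T) * Real.log T ^ (k ^ 2)) ≤ aF k + 1 := by
    refine le_trans (mul_le_mul_of_nonneg_left h5.le ?_) hn1.le
    positivity
  have h8 : (2 * (((i:ℝ) + 1) * X T / Real.log T)) ^ (k ^ 2) *
      (Real.exp (((i:ℝ) + 1) * X T) * Real.log T ^ (k ^ 2)) =
      (2 * (((i:ℝ) + 1) * X T)) ^ (k ^ 2) * Real.exp (((i:ℝ) + 1) * X T) := by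
    rw [← mul_div_assoc, div_pow]
    field_simp
  rw [h8] at h7
  have hi1 : (1:ℝ) ≤ ((i:ℝ) + 1) * X T := by
    have : (0:ℝ) ≤ i := Nat.cast_nonneg i
    nlinarith
  have h9 : (1:ℝ) ≤ (2 * (((i:ℝ) + 1) * X T)) ^ (k ^ 2) := one_le_pow₀ (by linarith)
  have h10 : ((i:ℝ) + 1) * X T + 1 ≤ Real.exp (((i:ℝ) + 1) * X T) := Real.add_one_le_exp _
  have h11 : (m:ℝ) < i := by exact_mod_cast h3
  have h12 : (i:ℝ) + 1 ≤ ((i:ℝ) + 1) * X T := le_mul_of_one_le_right (by positivity) hXT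
  have h13 : Real.exp (((i:ℝ) + 1) * X T) ≤ (2 * (((i:ℝ) + 1) * X T)) ^ (k ^ 2) * Real.exp (((i:ℝ) + 1) * X T) :=
    le_mul_of_one_le_left (Real.exp_pos _).le h9
  linarith

/-- an upper bound at one distance gives an upper bound on the line -/
theorem L6 (hk : 1 ≤ k) (hX1 : ∀ T, 1 ≤ X T) (hX2 : ∃ D : ℝ, ∀ᶠ T in atTop, X (2 * T) ≤ D * X T)
    (hX3 : Tendsto (fun T => X T / Real.log T) atTop (𝓝 0))
    (H : ∃ C : ℝ, 0 < C ∧ ∀ᶠ T in atTop, MZ k (C * X T / Real.log T) T ≤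
      Real.exp (C * X T) * Real.log T ^ (k ^ 2)) :
    ∃ C : ℝ, ∀ᶠ T in atTop, MZ k 0 T ≤ Real.exp (C * X T) * Real.log T ^ (k ^ 2) := by
  obtain ⟨c, hc, hH⟩ := H
  obtain ⟨R, hR, hrefl⟩ := refl_k hk
  obtain ⟨D, hD⟩ := hX2
  set B : ℝ := ((k:ℝ) + 1) * c * max D 0 with hB
  set A : ℝ := R * (2 ^ (k ^ 2 + 1) + 1) + R / c with hA
  have hA0 : 0 < A := by positivity
  have hB0 : 0 ≤ B := by positivity
  refine ⟨A + B, ?_⟩
  have hdel : Tendsto (fun T => c * (X T / Real.log T)) atTop (𝓝 0) := by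
    have := hX3.const_mul c
    rwa [mul_zero] at this
  filter_upwards [two_T.eventually hH, hD, eventually_ge_atTop (2:ℝ),
    Real.tendsto_log_atTop.eventually_ge_atTop 1,
    two_T.eventually (hdel.eventually_le_const (show (0:ℝ) < 1 / 8 by norm_num))] with T h1 h2 h3 hLT h5
  have hT0 : 0 < T := by linarith
  set L := Real.log T with hL
  have hL0 : 0 < L := by linarith
  have hL2 : 0 < Real.log (2 * T) := Real.log_pos (by linarith)
  have hX2T := hX1 (2 * T)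
  have hXT := hX1 T
  set Δ := c * X (2 * T) / Real.log (2 * T) with hΔ
  have hΔ0 : 0 < Δ := by positivity
  have hΔ1 : Δ ≤ 1 / 8 := by rw [hΔ, mul_div_assoc]; exact h5
  have h6 := hrefl T Δ (by linarith) hΔ0 hΔ1
  have e1 : ∫ t in (0:ℝ)..(2 * T), zn (1 / 2 + Δ) t ^ (2 * k) = 2 * T * MZ k Δ (2 * T) := by
    unfold MZ; field_simp
  have e2 : ∫ t in (0:ℝ)..T, zn (1 / 2) t ^ (2 * k) = T * MZ k 0 T := by
    unfold MZ; rw [add_zero]; field_simp
  have e3 : (2 * T) ^ ((k:ℝ) * Δ) = Real.exp (k * (c * X (2 * T))) := by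
    rw [Real.rpow_def_of_pos (by positivity), hΔ]
    congr 1
    field_simp
  rw [e1, e2, e3] at h6
  have hlg := log_two_T h3
  rw [← hL] at hlg
  have b1 : Real.log (2 * T) ^ (k ^ 2) ≤ 2 ^ (k ^ 2) * L ^ (k ^ 2) := by
    rw [← mul_pow]
    exact pow_le_pow_left₀ hL2.le hlg _
  have b2 : MZ k Δ (2 * T) ≤ Real.exp (c * X (2 * T)) * (2 ^ (k ^ 2) * L ^ (k ^ 2)) :=
    h1.trans (mul_le_mul_of_nonneg_left b1 (Real.exp_pos _).le)
  have hE1 : 1 ≤ Real.exp (c * X (2 * T)) := Real.one_le_exp (by positivity)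
  have hLk : 1 ≤ L ^ (k ^ 2) := one_le_pow₀ hLT
  have b3 : R / Δ ≤ R / c * (T * (Real.exp (k * (c * X (2 * T))) * Real.exp (c * X (2 * T)) * L ^ (k ^ 2))) := by
    have g1 : 1 / Δ ≤ Real.log (2 * T) / c := by
      rw [hΔ, one_div_div]
      exact div_le_div_of_nonneg_left hL2.le (by positivity) (le_mul_of_one_le_right hc.le hX2T)
    have g2 : Real.log (2 * T) ≤ T := by
      have g3 : Real.log (2 * T) = Real.log 2 + L := Real.log_mul (by norm_num) (by linarith)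
      have g4 : L ≤ T - 1 := Real.log_le_sub_one_of_pos hT0
      have g5 := Real.log_two_lt_d9
      linarith
    have g6 : 1 ≤ Real.exp (k * (c * X (2 * T))) := Real.one_le_exp (by positivity)
    have g7 : 1 ≤ Real.exp (k * (c * X (2 * T))) * Real.exp (c * X (2 * T)) * L ^ (k ^ 2) :=
      one_le_mul_of_one_le_of_one_le (one_le_mul_of_one_le_of_one_le g6 hE1) hLk
    calc R / Δ = R * (1 / Δ) := by ring
      _ ≤ R * (Real.log (2 * T) / c) := by gcongr
      _ = R / c * (Real.log (2 * T) * 1) := by ring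
      _ ≤ R / c * (T * (Real.exp (k * (c * X (2 * T))) * Real.exp (c * X (2 * T)) * L ^ (k ^ 2))) := by gcongr
  have b4 : T * MZ k 0 T ≤ T * (A * (Real.exp (k * (c * X (2 * T))) * Real.exp (c * X (2 * T)) * L ^ (k ^ 2))) := by
    refine h6.trans ?_
    have g1 : 2 * T * MZ k Δ (2 * T) + T ≤
        (2 ^ (k ^ 2 + 1) + 1) * (T * (Real.exp (c * X (2 * T)) * L ^ (k ^ 2))) := by
      have g2 : T ≤ T * (Real.exp (c * X (2 * T)) * L ^ (k ^ 2)) :=
        le_mul_of_one_le_right hT0.le (one_le_mul_of_one_le_of_one_le hE1 hLk)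
      have g3 : 2 * T * MZ k Δ (2 * T) ≤ 2 * T * (Real.exp (c * X (2 * T)) * (2 ^ (k ^ 2) * L ^ (k ^ 2))) := by gcongr
      calc 2 * T * MZ k Δ (2 * T) + T ≤ 2 * T * (Real.exp (c * X (2 * T)) * (2 ^ (k ^ 2) * L ^ (k ^ 2))) +
            T * (Real.exp (c * X (2 * T)) * L ^ (k ^ 2)) := add_le_add g3 g2
        _ = _ := by rw [pow_succ]; ring
    calc R * Real.exp (k * (c * X (2 * T))) * (2 * T * MZ k Δ (2 * T) + T) + R / Δ ≤
        R * Real.exp (k * (c * X (2 * T))) * ((2 ^ (k ^ 2 + 1) + 1) * (T * (Real.exp (c * X (2 * T)) * L ^ (k ^ 2)))) +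
        R / c * (T * (Real.exp (k * (c * X (2 * T))) * Real.exp (c * X (2 * T)) * L ^ (k ^ 2))) := by
          refine add_le_add (mul_le_mul_of_nonneg_left g1 (by positivity)) b3
      _ = _ := by rw [hA]; ring
  have b5 := le_of_mul_le_mul_left b4 hT0
  refine b5.trans ?_
  have g8 : A ≤ Real.exp (A * X T) := by
    have h7 : A * X T + 1 ≤ Real.exp (A * X T) := Real.add_one_le_exp _
    have h8 : A ≤ A * X T := le_mul_of_one_le_right hA0.le hXT
    linarith
  have g9 : Real.exp (k * (c * X (2 * T))) * Real.exp (c * X (2 * T)) ≤ Real.exp (B * X T) := by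
    rw [← Real.exp_add]
    refine Real.exp_le_exp.mpr ?_
    calc k * (c * X (2 * T)) + c * X (2 * T) = ((k:ℝ) + 1) * c * X (2 * T) := by ring
      _ ≤ ((k:ℝ) + 1) * c * (max D 0 * X T) := by
          refine mul_le_mul_of_nonneg_left ?_ (by positivity)
          exact h2.trans (mul_le_mul_of_nonneg_right (le_max_left _ _) (by linarith))
      _ = B * X T := by rw [hB]; ring
  calc A * (Real.exp (k * (c * X (2 * T))) * Real.exp (c * X (2 * T)) * L ^ (k ^ 2)) ≤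
      Real.exp (A * X T) * (Real.exp (B * X T) * L ^ (k ^ 2)) := by gcongr
    _ = Real.exp ((A + B) * X T) * L ^ (k ^ 2) := by
        rw [show (A + B) * X T = A * X T + B * X T from add_mul _ _ _, Real.exp_add]
        exact (mul_assoc _ _ _).symm

/-- the uniform asymptotic formula -/
theorem L7 (hk : 1 ≤ k) (hX1 : ∀ T, 1 ≤ X T) (hX2 : ∃ D : ℝ, ∀ᶠ T in atTop, X (2 * T) ≤ D * X T)
    (H : ∃ C : ℝ, ∀ᶠ T in atTop, MZ k 0 T ≤ Real.exp (C * X T) * Real.log T ^ (k ^ 2)) :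
    ∀ e : ℝ, 0 < e → ∃ C : ℝ, 0 < C ∧ ∀ᶠ T in atTop, ∀ δ : ℝ, C * X T / Real.log T ≤ δ → δ ≤ 1 / 16 →
      |MZ k δ T - SS k (2 * δ)| ≤ e * SS k (2 * δ) := by
  intro e he
  obtain ⟨C1, hC1, hL1⟩ := L1 hk hX1 hX2 H (ε := 1 / 2) (by norm_num) (by norm_num)
  obtain ⟨C2, hC2, hBS⟩ := BZ_SS hk (ε := 1 / 2) (by norm_num) (by norm_num)
  obtain ⟨c, hc, hlow⟩ := SS_low hk
  set η := min (e / 8) 1 with hη
  have hη0 : 0 < η := by positivity
  -- the size of the constant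
  have hs1 : ∀ᶠ y : ℝ in atTop, C2 * (y ^ 0 * Real.exp (-(1 / 2 * y))) < η := by
    have := (pow_exp 0 (show (0:ℝ) < 1 / 2 by norm_num)).const_mul C2
    rw [mul_zero] at this
    exact this.eventually_lt_const hη0
  have hs2 : ∀ᶠ y : ℝ in atTop, (1 + 1 / η) * (C1 / c * 2 ^ (k ^ 2)) * (y ^ (k ^ 2) * Real.exp (-(1 / 2 * y))) < e / 4 := by
    have := (pow_exp (k ^ 2) (show (0:ℝ) < 1 / 2 by norm_num)).const_mul ((1 + 1 / η) * (C1 / c * 2 ^ (k ^ 2)))
    rw [mul_zero] at this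
    exact this.eventually_lt_const (by positivity)
  obtain ⟨y0, hy0⟩ := (eventually_atTop.mp (hs1.and hs2))
  refine ⟨max (2 * C1) (max y0 1), by positivity, ?_⟩
  filter_upwards [hL1, hBS η hη0, eventually_gt_atTop (0:ℝ), Real.tendsto_log_atTop.eventually_gt_atTop 0]
    with T hT1 hT2 hT0 hL0
  intro δ hδ1 hδ2
  set L := Real.log T with hL
  have hXT := hX1 T
  have hy : max (2 * C1) (max y0 1) * X T ≤ δ * L := by
    rw [div_le_iff₀ hL0] at hδ1
    exact hδ1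
  have hy1 : 2 * C1 * X T ≤ δ * L := le_trans (mul_le_mul_of_nonneg_right (le_max_left _ _) (by linarith)) hy
  have hy2 : max y0 1 ≤ δ * L := by
    refine le_trans ?_ hy
    have g1 : max y0 1 ≤ max (2 * C1) (max y0 1) := le_max_right _ _
    have g2 : (0:ℝ) ≤ max (2 * C1) (max y0 1) := by positivity
    nlinarith
  have hy3 : 1 ≤ δ * L := (le_max_right _ _).trans hy2
  have hδL : 1 / L ≤ δ := by rw [div_le_iff₀ hL0]; exact hy3
  have hδ0 : 0 < δ := lt_of_lt_of_le (by positivity) hδL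
  obtain ⟨q1, q2⟩ := hy0 (δ * L) ((le_max_left _ _).trans hy2)
  have hE := hT1 δ hδL hδ2
  have hB := hT2 δ hδ0 (by linarith)
  have hS0 := SS_nonneg k (2 * δ)
  have hlw := hlow (2 * δ) (by positivity) (by linarith)
  -- the polynomial
  have hB2 : |BZ k (1 / 2) δ T - SS k (2 * δ)| ≤ 2 * η * SS k (2 * δ) := by
    refine hB.trans (mul_le_mul_of_nonneg_right ?_ hS0)
    rw [pow_zero, one_mul] at q1
    have : Real.exp (-(1 / 2 * δ * L)) = Real.exp (-(1 / 2 * (δ * L))) := by congr 2; ring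
    rw [this]
    linarith
  have hB3 : BZ k (1 / 2) δ T ≤ 3 * SS k (2 * δ) := by
    have h1 := (abs_le.mp hB2).2
    have h2 : η ≤ 1 := min_le_right _ _
    nlinarith
  -- the difference
  have hE2 : EZ k (1 / 2) δ T ≤ C1 / c * 2 ^ (k ^ 2) * ((δ * L) ^ (k ^ 2) * Real.exp (-(1 / 2 * (δ * L)))) *
      SS k (2 * δ) := by
    have g1 : Real.exp (C1 * X T) * Real.exp (-(2 * (1 / 2) * δ * L)) ≤ Real.exp (-(1 / 2 * (δ * L))) := by
      rw [← Real.exp_add]
      exact Real.exp_le_exp.mpr (by linarith)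
    calc EZ k (1 / 2) δ T ≤ C1 * Real.exp (C1 * X T) * Real.exp (-(2 * (1 / 2) * δ * L)) * L ^ (k ^ 2) := hE
      _ = C1 * (Real.exp (C1 * X T) * Real.exp (-(2 * (1 / 2) * δ * L))) * L ^ (k ^ 2) := by ring
      _ ≤ C1 * Real.exp (-(1 / 2 * (δ * L))) * L ^ (k ^ 2) := by gcongr
      _ = C1 / c * Real.exp (-(1 / 2 * (δ * L))) * L ^ (k ^ 2) * c := by field_simp
      _ ≤ C1 / c * Real.exp (-(1 / 2 * (δ * L))) * L ^ (k ^ 2) * ((2 * δ) ^ (k ^ 2) * SS k (2 * δ)) := by gcongr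
      _ = _ := by rw [mul_pow, mul_pow]; ring
  have hfin := MZ_BZ k (1 / 2) (δ := δ) hT0 hη0 (by linarith)
  have h1 : (1 + 1 / η) * EZ k (1 / 2) δ T ≤ e / 4 * SS k (2 * δ) := by
    calc (1 + 1 / η) * EZ k (1 / 2) δ T ≤ (1 + 1 / η) * (C1 / c * 2 ^ (k ^ 2) *
          ((δ * L) ^ (k ^ 2) * Real.exp (-(1 / 2 * (δ * L)))) * SS k (2 * δ)) := by gcongr
      _ = (1 + 1 / η) * (C1 / c * 2 ^ (k ^ 2)) * ((δ * L) ^ (k ^ 2) * Real.exp (-(1 / 2 * (δ * L)))) *
          SS k (2 * δ) := by ring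
      _ ≤ _ := mul_le_mul_of_nonneg_right q2.le hS0
  have h2 : η * BZ k (1 / 2) δ T ≤ 3 * η * SS k (2 * δ) := by
    calc η * BZ k (1 / 2) δ T ≤ η * (3 * SS k (2 * δ)) := by gcongr
      _ = _ := by ring
  have h3 : η ≤ e / 8 := min_le_left _ _
  have h4 : (5 * η + e / 4) * SS k (2 * δ) ≤ e * SS k (2 * δ) :=
    mul_le_mul_of_nonneg_right (by linarith) hS0
  calc |MZ k δ T - SS k (2 * δ)| ≤ |MZ k δ T - BZ k (1 / 2) δ T| + |BZ k (1 / 2) δ T - SS k (2 * δ)| :=
        abs_sub_le _ _ _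
    _ ≤ (3 * η * SS k (2 * δ) + e / 4 * SS k (2 * δ)) + 2 * η * SS k (2 * δ) := by linarith
    _ = (5 * η + e / 4) * SS k (2 * δ) := by ring
    _ ≤ _ := h4

/-- the uniform formula gives the formula along all paths -/
theorem L8 (hk : 1 ≤ k) (hX1 : ∀ T, 1 ≤ X T)
    (H : ∀ e : ℝ, 0 < e → ∃ C : ℝ, 0 < C ∧ ∀ᶠ T in atTop, ∀ δ : ℝ, C * X T / Real.log T ≤ δ → δ ≤ 1 / 16 →
      |MZ k δ T - SS k (2 * δ)| ≤ e * SS k (2 * δ)) {δ : ℝ → ℝ} (hδ : Pth X δ) :
    Tendsto (fun T => (2 * δ T) ^ (k ^ 2) * MZ k (δ T) T) atTop (𝓝 (aF k)) := by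
  have hS := SS_path hk hX1 hδ
  have hk0 : (0:ℝ) < k := by exact_mod_cast hk
  have ha := aF_pos hk0
  rw [Metric.tendsto_nhds]
  intro e he
  set η := e / (4 * (aF k + 1)) with hη
  have hη0 : 0 < η := by positivity
  obtain ⟨C, hC, hU⟩ := H η hη0
  filter_upwards [hU, hS.eventually (Metric.ball_mem_nhds _ (show 0 < min (e / 4) 1 by positivity)),
    hδ.pos hX1, hδ.inf.eventually_ge_atTop C, Real.tendsto_log_atTop.eventually_gt_atTop 0,
    hδ.z.eventually_le_const (show (0:ℝ) < 1 / 16 by norm_num)] with T h1 h3 h5 h6 hL0 h7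
  have hXT := hX1 T
  have hX0 : 0 < X T := by linarith
  have h8 := h1 (δ T) (by
    rw [div_le_iff₀ hL0]
    rwa [le_div_iff₀ hX0] at h6) h7
  rw [Real.dist_eq] at h3 ⊢
  have hp : 0 < (2 * δ T) ^ (k ^ 2) := by have := h5.2; positivity
  have h9 : |(2 * δ T) ^ (k ^ 2) * MZ k (δ T) T - (2 * δ T) ^ (k ^ 2) * SS k (2 * δ T)| ≤
      η * ((2 * δ T) ^ (k ^ 2) * SS k (2 * δ T)) := by
    rw [← mul_sub, abs_mul, abs_of_pos hp]
    calc (2 * δ T) ^ (k ^ 2) * |MZ k (δ T) T - SS k (2 * δ T)| ≤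
        (2 * δ T) ^ (k ^ 2) * (η * SS k (2 * δ T)) := by gcongr
      _ = _ := by ring
  have h10 : (2 * δ T) ^ (k ^ 2) * SS k (2 * δ T) ≤ aF k + 1 := by
    have := (abs_lt.mp h3).2
    have := min_le_right (e / 4) 1
    linarith
  have h11 : η * ((2 * δ T) ^ (k ^ 2) * SS k (2 * δ T)) ≤ e / 4 := by
    calc η * ((2 * δ T) ^ (k ^ 2) * SS k (2 * δ T)) ≤ η * (aF k + 1) := by gcongr
      _ = e / 4 := by rw [hη]; field_simp
  have h12 : |(2 * δ T) ^ (k ^ 2) * SS k (2 * δ T) - aF k| < e / 4 := lt_of_lt_of_le h3 (min_le_left _ _)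
  calc |(2 * δ T) ^ (k ^ 2) * MZ k (δ T) T - aF k| ≤
      |(2 * δ T) ^ (k ^ 2) * MZ k (δ T) T - (2 * δ T) ^ (k ^ 2) * SS k (2 * δ T)| +
      |(2 * δ T) ^ (k ^ 2) * SS k (2 * δ T) - aF k| := abs_sub_le _ _ _
    _ < e := by linarith

end Pool.Agent.J4H26.EQ
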