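import Pool.Agent.J4H26.EQ.Core

set_option autoImplicit false

/-! The implications. -/

namespace Pool.Agent.J4H26.EQ

open MeasureTheory Filter Topology Complex Pool.Agent.H306R2 Pool.Agent.W184

/-- facts about the length `N = ⌊T^ε⌋` -/
lemma len {ε : ℝ} (h0 : 0 < ε) (h1 : ε < 1) {η : ℝ} (hη : 0 < η) : ∀ᶠ T : ℝ in atTop,
    3 ≤ ⌊T ^ ε⌋₊ ∧ ((⌊T ^ ε⌋₊ : ℕ) : ℝ) ≤ T ∧
    (⌊T ^ ε⌋₊ : ℝ) * (1 + Real.log ⌊T ^ ε⌋₊) ≤ η * T ∧
    ∀ a : ℝ, 0 ≤ a → a ≤ 1 → (⌊T ^ ε⌋₊ : ℝ) ^ (-a) ≤ 2 * Real.exp (-(ε * a * Real.log T)) := by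
  have hlim : Tendsto (fun T : ℝ => T ^ ε) atTop atTop := tendsto_rpow_atTop h0
  have hs1 : ∀ᶠ T : ℝ in atTop, Real.log T ≤ η / 2 * T ^ (1 - ε) := by
    have h := (isLittleO_log_rpow_atTop (r := 1 - ε) (by linarith)).bound (c := η / 2) (by positivity)
    filter_upwards [h, eventually_ge_atTop (1:ℝ)] with T hT hT1
    have hT0 : 0 < T := by linarith
    rwa [Real.norm_eq_abs, Real.norm_eq_abs, abs_of_nonneg (Real.log_nonneg hT1),
      abs_of_nonneg (by positivity)] at hT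
  have hs2 : ∀ᶠ T : ℝ in atTop, 1 ≤ η / 2 * T ^ (1 - ε) := by
    have h := (tendsto_rpow_atTop (y := 1 - ε) (by linarith)).eventually_ge_atTop (2 / η)
    filter_upwards [h] with T hT
    have := mul_le_mul_of_nonneg_left hT (show 0 ≤ η / 2 by positivity)
    calc (1:ℝ) = η / 2 * (2 / η) := by field_simp
      _ ≤ _ := this
  filter_upwards [hlim.eventually_ge_atTop 3, hs1, hs2, eventually_ge_atTop (1:ℝ)] with T h3 hs1 hs2 hT1
  have hT0 : 0 < T := by linarith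
  have hL : 0 ≤ Real.log T := Real.log_nonneg hT1
  have hN3 : 3 ≤ ⌊T ^ ε⌋₊ := Nat.le_floor (by exact_mod_cast h3)
  have hNle : ((⌊T ^ ε⌋₊ : ℕ) : ℝ) ≤ T ^ ε := Nat.floor_le (by positivity)
  have hN0 : (0:ℝ) < (⌊T ^ ε⌋₊ : ℕ) := by exact_mod_cast (by omega : 0 < ⌊T ^ ε⌋₊)
  have hTe : T ^ ε ≤ T := by
    calc T ^ ε ≤ T ^ (1:ℝ) := Real.rpow_le_rpow_of_exponent_le hT1 h1.le
      _ = T := Real.rpow_one T
  have hlog : Real.log (⌊T ^ ε⌋₊ : ℕ) ≤ Real.log T := Real.log_le_log hN0 (hNle.trans hTe)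
  refine ⟨hN3, hNle.trans hTe, ?_, fun a ha0 ha1 => ?_⟩
  · calc ((⌊T ^ ε⌋₊ : ℕ) : ℝ) * (1 + Real.log (⌊T ^ ε⌋₊ : ℕ)) ≤ T ^ ε * (1 + Real.log T) := by
          refine mul_le_mul hNle (by linarith) ?_ (by positivity)
          have := Real.log_nonneg (show (1:ℝ) ≤ (⌊T ^ ε⌋₊ : ℕ) by exact_mod_cast (by omega : 1 ≤ ⌊T ^ ε⌋₊))
          linarith
      _ ≤ T ^ ε * (η / 2 * T ^ (1 - ε) + η / 2 * T ^ (1 - ε)) := by gcongr
      _ = η * (T ^ ε * T ^ (1 - ε)) := by ring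
      _ = η * T := by rw [← Real.rpow_add hT0]; norm_num
  · have hlow : T ^ ε / 2 ≤ (⌊T ^ ε⌋₊ : ℕ) := by
      have := Nat.lt_floor_add_one (T ^ ε)
      linarith
    have hp : 0 < T ^ ε / 2 := by positivity
    calc ((⌊T ^ ε⌋₊ : ℕ) : ℝ) ^ (-a) ≤ (T ^ ε / 2) ^ (-a) :=
          Real.rpow_le_rpow_of_nonpos hp hlow (by linarith)
      _ = 2 ^ a * Real.exp (-(ε * a * Real.log T)) := by
          rw [Real.div_rpow (by positivity) (by norm_num), Real.rpow_neg (by norm_num : (0:ℝ) ≤ 2),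
            div_inv_eq_mul, ← Real.rpow_mul hT0.le, Real.rpow_def_of_pos hT0, mul_comm]
          congr 2
          ring
      _ ≤ 2 ^ (1:ℝ) * Real.exp (-(ε * a * Real.log T)) := by
          have : (2:ℝ) ^ a ≤ 2 ^ (1:ℝ) := Real.rpow_le_rpow_of_exponent_le (by norm_num) ha1
          gcongr
      _ = _ := by rw [Real.rpow_one]

section

variable {k : ℕ} {X : ℝ → ℝ}

lemma two_T : Tendsto (fun T : ℝ => 2 * T) atTop atTop :=
  Tendsto.const_mul_atTop (by norm_num) tendsto_id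

lemma log_two_T {T : ℝ} (hT : 2 ≤ T) : Real.log (2 * T) ≤ 2 * Real.log T := by
  rw [Real.log_mul (by norm_num) (by linarith)]
  have := Real.log_le_log (by norm_num) hT
  linarith

theorem L1 (hk : 1 ≤ k) (hX1 : ∀ T, 1 ≤ X T) (hX2 : ∃ D : ℝ, ∀ᶠ T in atTop, X (2 * T) ≤ D * X T)
    (H : ∃ C : ℝ, ∀ᶠ T in atTop, MZ k 0 T ≤ Real.exp (C * X T) * Real.log T ^ (k ^ 2))
    {ε : ℝ} (h0 : 0 < ε) (h1 : ε < 1) : ∃ C : ℝ, 0 < C ∧ ∀ᶠ T in atTop, ∀ Δ : ℝ, 1 / Real.log T ≤ Δ →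
      Δ ≤ 1 / 16 → EZ k ε Δ T ≤ C * Real.exp (C * X T) * Real.exp (-(2 * ε * Δ * Real.log T)) *
        Real.log T ^ (k ^ 2) := by
  obtain ⟨C0, hC0, hL0⟩ := L0 hk
  obtain ⟨Cs, hCs, hSS⟩ := SS_up hk
  obtain ⟨C1, hC1⟩ := H
  obtain ⟨D, hD⟩ := hX2
  set A : ℝ := 2 * C0 * (2 ^ (k ^ 2 + 1) + 2 * Real.exp 1 * Cs + 1) with hA
  set B : ℝ := max C1 0 * max D 0 with hB
  have hB0 : 0 ≤ B := by positivity
  refine ⟨A + B, by positivity, ?_⟩
  filter_upwards [len h0 h1 one_pos, two_T.eventually hC1, hD, eventually_ge_atTop (2:ℝ),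
    Real.tendsto_log_atTop.eventually_ge_atTop 1] with T hlen hT1 hTD hT2 hLT
  intro Δ hΔ1 hΔ2
  obtain ⟨hN3, hNT, hNl, hNp⟩ := hlen
  set N := ⌊T ^ ε⌋₊ with hN
  set L := Real.log T with hLd
  have hT0 : 0 < T := by linarith
  have hL0' : 0 < L := by linarith
  have hΔ0 : 0 < Δ := lt_of_lt_of_le (by positivity) hΔ1
  have hXT := hX1 T
  have hX2T := hX1 (2 * T)
  have hN1 : (1:ℝ) < N := by exact_mod_cast (by omega : 1 < N)
  have hlogN1 : 1 ≤ Real.log N := by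
    rw [Real.le_log_iff_exp_le (by linarith)]
    have h3 : (3:ℝ) ≤ N := by exact_mod_cast hN3
    linarith [Real.exp_one_lt_d9]
  have hlogNL : Real.log N ≤ L := Real.log_le_log (by linarith) hNT
  have h := hL0 T N Δ (by linarith) (by omega) hNT hΔ0 hΔ2
  -- the moment on the line
  have hJ : ∫ t in (0:ℝ)..(2 * T), zn (1 / 2) t ^ (2 * k) ≤
      2 ^ (k ^ 2 + 1) * (T * (Real.exp (B * X T) * L ^ (k ^ 2))) := by
    have e1 : ∫ t in (0:ℝ)..(2 * T), zn (1 / 2) t ^ (2 * k) = 2 * T * MZ k 0 (2 * T) := by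
      unfold MZ; rw [add_zero]; field_simp
    have e2 : Real.exp (C1 * X (2 * T)) ≤ Real.exp (B * X T) := by
      refine Real.exp_le_exp.mpr ?_
      calc C1 * X (2 * T) ≤ max C1 0 * X (2 * T) := mul_le_mul_of_nonneg_right (le_max_left _ _) (by linarith)
        _ ≤ max C1 0 * (max D 0 * X T) := by
            refine mul_le_mul_of_nonneg_left ?_ (le_max_right _ _)
            exact hTD.trans (mul_le_mul_of_nonneg_right (le_max_left _ _) (by linarith))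
        _ = B * X T := by rw [hB]; ring
    have e3 : Real.log (2 * T) ^ (k ^ 2) ≤ (2 * L) ^ (k ^ 2) :=
      pow_le_pow_left₀ (Real.log_nonneg (by linarith)) (log_two_T hT2) _
    rw [e1]
    calc 2 * T * MZ k 0 (2 * T) ≤ 2 * T * (Real.exp (B * X T) * (2 * L) ^ (k ^ 2)) := by
          refine mul_le_mul_of_nonneg_left (hT1.trans ?_) (by positivity)
          exact mul_le_mul e2 e3 (pow_nonneg (Real.log_nonneg (by linarith)) _) (Real.exp_pos _).le
      _ = _ := by rw [mul_pow, pow_succ]; ring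
  -- the sum on the line
  have hP : PS k 0 N ≤ Real.exp 1 * Cs * L ^ (k ^ 2) := by
    have a1 := PS_zero_le k (N := N) (by omega)
    have a2 := hSS (1 / Real.log N) (by positivity) (by rw [div_le_one (by linarith)]; exact hlogN1)
    have a3 : SS k (1 / Real.log N) ≤ Cs * Real.log N ^ (k ^ 2) := by
      rw [one_div, inv_pow, inv_mul_le_iff₀ (by positivity)] at a2
      rw [one_div]
      linarith
    have a4 : Real.log N ^ (k ^ 2) ≤ L ^ (k ^ 2) := pow_le_pow_left₀ (by linarith) hlogNL _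
    calc PS k 0 N ≤ Real.exp 1 * SS k (1 / Real.log N) := a1
      _ ≤ Real.exp 1 * (Cs * L ^ (k ^ 2)) := by
          refine mul_le_mul_of_nonneg_left (a3.trans ?_) (Real.exp_pos _).le
          exact mul_le_mul_of_nonneg_left a4 hCs.le
      _ = _ := by ring
  have hP0 := PS_nonneg k 0 N
  have hE1 : 1 ≤ Real.exp (B * X T) := Real.one_le_exp (by positivity)
  have hLk : 1 ≤ L ^ (k ^ 2) := one_le_pow₀ hLT
  have hEL : 1 ≤ Real.exp (B * X T) * L ^ (k ^ 2) := by nlinarith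
  have hlogT : L ≤ T := by
    have := Real.log_le_sub_one_of_pos hT0
    rw [← hLd] at this
    linarith
  have hsum : (∫ t in (0:ℝ)..(2 * T), zn (1 / 2) t ^ (2 * k)) + (T + N * (1 + Real.log N)) * PS k 0 N + 1 / Δ ≤
      (2 ^ (k ^ 2 + 1) + 2 * Real.exp 1 * Cs + 1) * (T * (Real.exp (B * X T) * L ^ (k ^ 2))) := by
    have b1 : (T + N * (1 + Real.log N)) * PS k 0 N ≤
        2 * Real.exp 1 * Cs * (T * (Real.exp (B * X T) * L ^ (k ^ 2))) := by
      calc (T + N * (1 + Real.log N)) * PS k 0 N ≤ (2 * T) * (Real.exp 1 * Cs * L ^ (k ^ 2)) := by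
            refine mul_le_mul (by linarith) hP hP0 (by positivity)
        _ = 2 * Real.exp 1 * Cs * (T * (1 * L ^ (k ^ 2))) := by ring
        _ ≤ _ := by gcongr
    have b2 : 1 / Δ ≤ 1 * (T * (Real.exp (B * X T) * L ^ (k ^ 2))) := by
      have : 1 / Δ ≤ L := by
        rw [div_le_iff₀ hΔ0]
        have := mul_le_mul_of_nonneg_left hΔ1 hL0'.le
        rwa [mul_one_div, div_self hL0'.ne'] at this
      calc 1 / Δ ≤ T * 1 := by linarith
        _ ≤ T * (Real.exp (B * X T) * L ^ (k ^ 2)) := by gcongr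
        _ = _ := by ring
    rw [add_mul, add_mul]
    linarith
  have hNpow := hNp (2 * Δ) (by positivity) (by linarith)
  have e3 : Real.exp (-(ε * (2 * Δ) * Real.log T)) = Real.exp (-(2 * ε * Δ * L)) := by congr 2; ring
  rw [e3] at hNpow
  have hAE : 0 ≤ (2 ^ (k ^ 2 + 1) + 2 * Real.exp 1 * Cs + 1) * (T * (Real.exp (B * X T) * L ^ (k ^ 2))) := by
    positivity
  have hI : ∫ t in (0:ℝ)..T, qd k (DS (dd k) N) (1 / 2 + Δ) t ≤
      C0 * (2 * Real.exp (-(2 * ε * Δ * L))) *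
      ((2 ^ (k ^ 2 + 1) + 2 * Real.exp 1 * Cs + 1) * (T * (Real.exp (B * X T) * L ^ (k ^ 2)))) := by
    refine h.trans ?_
    have c1 : C0 * (N:ℝ) ^ (-(2 * Δ)) ≤ C0 * (2 * Real.exp (-(2 * ε * Δ * L))) :=
      mul_le_mul_of_nonneg_left hNpow hC0.le
    refine mul_le_mul c1 hsum ?_ (by positivity)
    have hJ0 : 0 ≤ ∫ t in (0:ℝ)..(2 * T), zn (1 / 2) t ^ (2 * k) :=
      intervalIntegral.integral_nonneg (by linarith) fun x _ => pow_nonneg (zn_nonneg _ _) _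
    have : 0 ≤ (T + N * (1 + Real.log N)) * PS k 0 N := by positivity
    positivity
  have hfin : EZ k ε Δ T ≤ A * Real.exp (B * X T) * Real.exp (-(2 * ε * Δ * L)) * L ^ (k ^ 2) := by
    unfold EZ
    rw [← hN, one_div, inv_mul_le_iff₀ hT0]
    refine hI.trans (le_of_eq ?_)
    rw [hA]; ring
  refine hfin.trans ?_
  have hAle : A ≤ A + B := by linarith
  have hexp : Real.exp (B * X T) ≤ Real.exp ((A + B) * X T) := by
    refine Real.exp_le_exp.mpr (mul_le_mul_of_nonneg_right ?_ (by linarith))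
    have : 0 ≤ A := by positivity
    linarith
  have hA0 : 0 ≤ A := by positivity
  gcongr

end

end Pool.Agent.J4H26.EQ
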