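import Pool.Agent.J4H26.EQ.Half

set_option autoImplicit false

/-! The moment on the critical line in terms of the moment near it. -/

namespace Pool.Agent.J4H26.EQ

open MeasureTheory Filter Topology Complex Pool.Agent.H306R2 Pool.Agent.W184

lemma zn_pow_le {σ x : ℝ} (k : ℕ) (h1 : 3 / 8 ≤ σ) (h2 : σ ≤ 3 / 4) :
    zn σ x ^ (2 * k) ≤ 288 ^ k * (1 + x ^ 2) ^ k := by
  have h3 := pow_le_pow_left₀ (zn_nonneg _ _) (zn_le' (t := x) h1 h2) 2
  have h4 : (1 + |x|) ^ 2 ≤ 2 * (1 + x ^ 2) := by nlinarith [sq_nonneg (1 - |x|), sq_abs x]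
  have h5 : zn σ x ^ 2 ≤ 288 * (1 + x ^ 2) := by nlinarith
  have h6 := pow_le_pow_left₀ (by positivity) h5 k
  rw [pow_mul]
  exact h6.trans (le_of_eq (mul_pow _ _ _))

/-- functional equation for the powers -/
lemma fe_k {Δ τ X : ℝ} (k : ℕ) (h0 : 0 ≤ Δ) (h1 : Δ ≤ 1 / 8) (hX : 1 ≤ X)
    (ht : |τ| ≤ X) :
    zn (1 / 2 - Δ) τ ^ (2 * k) ≤
      X ^ ((2 * k : ℕ) * Δ) * (2 ^ k * zn (1 / 2 + Δ) τ ^ (2 * k) + 1212 ^ (2 * k)) := by
  have hX0 : 0 < X := by linarith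
  have hXp : 1 ≤ X ^ ((2 * k : ℕ) * Δ) := Real.one_le_rpow hX (by positivity)
  wlog hτ : 0 ≤ τ generalizing τ with H
  · have := H (τ := -τ) (by rwa [abs_neg]) (by linarith)
    rwa [zn_neg, zn_neg] at this
  rw [abs_of_nonneg hτ] at ht
  have hz0 := zn_nonneg (1 / 2 + Δ) τ
  rcases le_or_gt 100 τ with h100 | h100
  · have hf := fe_pos h0 h1 h100
    have hτ0 : 0 < τ := by linarith
    have h3 : τ ^ Δ ≤ X ^ Δ := Real.rpow_le_rpow hτ0.le ht h0
    have h4 : 1 + 16 / τ ≤ 1.16 := by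
      have : 16 / τ ≤ 0.16 := by rw [div_le_iff₀ hτ0]; linarith
      linarith
    have h2 : zn (1 / 2 - Δ) τ ≤ X ^ Δ * 1.16 * zn (1 / 2 + Δ) τ := by
      calc zn (1 / 2 - Δ) τ ≤ τ ^ Δ * (1 + 16 / τ) * zn (1 / 2 + Δ) τ := hf
        _ ≤ _ := by gcongr
    have h5 := pow_le_pow_left₀ (zn_nonneg _ _) h2 (2 * k)
    have h6 : (X ^ Δ) ^ (2 * k) = X ^ ((2 * k : ℕ) * Δ) := by
      rw [← Real.rpow_natCast, ← Real.rpow_mul hX0.le, mul_comm]
    have h7 : (1.16 : ℝ) ^ (2 * k) ≤ 2 ^ k := by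
      rw [pow_mul]
      exact pow_le_pow_left₀ (by norm_num) (by norm_num) k
    calc zn (1 / 2 - Δ) τ ^ (2 * k) ≤ (X ^ Δ * 1.16 * zn (1 / 2 + Δ) τ) ^ (2 * k) := h5
      _ = X ^ ((2 * k : ℕ) * Δ) * (1.16 ^ (2 * k) * zn (1 / 2 + Δ) τ ^ (2 * k)) := by
          rw [mul_pow, mul_pow, h6]; ring
      _ ≤ X ^ ((2 * k : ℕ) * Δ) * (2 ^ k * zn (1 / 2 + Δ) τ ^ (2 * k) + 1212 ^ (2 * k)) := by
          have : 0 ≤ zn (1 / 2 + Δ) τ ^ (2 * k) := pow_nonneg hz0 _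
          refine mul_le_mul_of_nonneg_left ?_ (by positivity)
          nlinarith [pow_pos (show (0:ℝ) < 1212 by norm_num) (2 * k)]
  · have h5 := zn_le' (σ := 1 / 2 - Δ) (t := τ) (by linarith) (by linarith)
    rw [abs_of_nonneg hτ] at h5
    have h6 : zn (1 / 2 - Δ) τ ≤ 1212 := by linarith
    have h7 := pow_le_pow_left₀ (zn_nonneg _ _) h6 (2 * k)
    have h8 : 0 ≤ 2 ^ k * zn (1 / 2 + Δ) τ ^ (2 * k) := by positivity
    calc zn (1 / 2 - Δ) τ ^ (2 * k) ≤ 1 * (0 + 1212 ^ (2 * k)) := by linarith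
      _ ≤ _ := by gcongr

lemma exp_neg_sq_le (m : ℕ) (w : ℝ) :
    Real.exp (-w ^ 2) ≤ (Real.exp 1 * m.factorial) * ((1 + w ^ 2)⁻¹) ^ m := by
  have h0 : 0 < 1 + w ^ 2 := by positivity
  have h1 := Real.pow_div_factorial_le_exp (1 + w ^ 2) h0.le m
  have hm : (0:ℝ) < m.factorial := by exact_mod_cast Nat.factorial_pos m
  rw [div_le_iff₀ hm] at h1
  rw [inv_pow, ← div_eq_mul_inv, le_div_iff₀ (by positivity)]
  have e : Real.exp 1 = Real.exp (-w ^ 2) * Real.exp (1 + w ^ 2) := by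
    rw [← Real.exp_add]; congr 1; ring
  rw [e]
  have h2 := mul_le_mul_of_nonneg_left h1 (Real.exp_pos (-w ^ 2)).le
  calc Real.exp (-w ^ 2) * (1 + w ^ 2) ^ m ≤ Real.exp (-w ^ 2) * (Real.exp (1 + w ^ 2) * m.factorial) := h2
    _ = _ := by ring

lemma even_window {f : ℝ → ℝ} (hf : Continuous f) (h0 : ∀ x, 0 ≤ f x) (he : ∀ x, f (-x) = f x) {T : ℝ}
    (hT : 0 ≤ T) : ∫ t in (-T)..(2 * T), f t ≤ 2 * ∫ t in (0:ℝ)..(2 * T), f t := by
  have h1 : ∫ t in (-T)..(0:ℝ), f t = ∫ t in (0:ℝ)..T, f t := by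
    have := intervalIntegral.integral_comp_neg (a := 0) (b := T) f
    rw [neg_zero] at this
    rw [← this]
    exact intervalIntegral.integral_congr fun x _ => he x
  have h2 := intervalIntegral.integral_add_adjacent_intervals (hf.intervalIntegrable (μ := volume) (-T) 0)
    (hf.intervalIntegrable 0 (2 * T))
  have h3 : ∫ t in (0:ℝ)..T, f t ≤ ∫ t in (0:ℝ)..(2 * T), f t :=
    intervalIntegral.integral_mono_interval le_rfl hT (by linarith) (Eventually.of_forall h0)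
      (hf.intervalIntegrable _ _)
  linarith

theorem refl_k {k : ℕ} (hk : 1 ≤ k) : ∃ C : ℝ, 0 < C ∧ ∀ T Δ : ℝ, 1 ≤ T → 0 < Δ → Δ ≤ 1 / 8 →
    ∫ t in (0:ℝ)..T, zn (1 / 2) t ^ (2 * k) ≤
      C * (2 * T) ^ ((k : ℝ) * Δ) * ((∫ t in (0:ℝ)..(2 * T), zn (1 / 2 + Δ) t ^ (2 * k)) + T) + C / Δ := by
  set m : ℕ := 3 * k + 3 with hm
  set C1 : ℝ := Real.exp (2 * k) * ((1 + 2 ^ k) * 2 + 3 * 1212 ^ (2 * k)) with hC1
  set C2 : ℝ := (2 * 2 ^ (2 * k) * 288 ^ k) * 4 ^ k * (Real.pi * (Real.exp (2 * k) * (Real.exp 1 * m.factorial))) with hC2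
  have hf0 : (0:ℝ) < m.factorial := by exact_mod_cast Nat.factorial_pos m
  refine ⟨C1 + C2, by positivity, fun T Δ hT h0 h1 => ?_⟩
  have hT0 : 0 < T := by linarith
  set X : ℝ := 2 * T with hX
  have hX1 : 1 ≤ X := by linarith
  have hX0 : 0 < X := by linarith
  set p : ℝ := ((2 * k : ℕ) : ℝ) with hp
  have hp2 : 2 ≤ p := by
    rw [hp]; exact_mod_cast (by omega : 2 ≤ 2 * k)
  have hpk : p = 2 * k := by rw [hp]; push_cast; ring
  have hexp : Real.exp (p * Δ ^ 2) ≤ Real.exp (2 * k) := by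
    refine Real.exp_le_exp.mpr ?_
    rw [← hpk]
    exact mul_le_of_le_one_right (by linarith) (pow_le_one₀ h0.le (by linarith))
  set K : ℝ → ℝ := fun w => KS Δ w * Real.exp (p * (Δ ^ 2 - w ^ 2)) with hK
  have hKc : Continuous K := (KS_cont h0).mul (by fun_prop)
  have hK0 : ∀ w, 0 ≤ K w := fun w => mul_nonneg (KS_nonneg h0 w) (Real.exp_pos _).le
  have hKe : ∀ w, K w = Real.exp (p * Δ ^ 2) * (KS Δ w * Real.exp (-(p * w ^ 2))) := by
    intro w
    simp only [hK]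
    rw [show p * (Δ ^ 2 - w ^ 2) = p * Δ ^ 2 + -(p * w ^ 2) by ring, Real.exp_add]
    ring
  have hKb : ∀ w, K w ≤ (Real.exp (2 * k) * (Real.exp 1 * m.factorial) / Δ) * ((1 + w ^ 2)⁻¹) ^ m := by
    intro w
    rw [hKe]
    have h2 := KS_le h0 w
    have h3 := exp_neg_sq_le m w
    have h4 : Real.exp (-(p * w ^ 2)) ≤ Real.exp (-w ^ 2) := Real.exp_le_exp.mpr (by nlinarith [sq_nonneg w])
    have h5 := h4.trans h3
    have h6 := KS_nonneg h0 w
    calc Real.exp (p * Δ ^ 2) * (KS Δ w * Real.exp (-(p * w ^ 2))) ≤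
        Real.exp (2 * k) * (1 / Δ * ((Real.exp 1 * m.factorial) * ((1 + w ^ 2)⁻¹) ^ m)) := by
          gcongr
      _ = _ := by ring
  have hKm : ∫ w, K w ≤ Real.exp (2 * k) := by
    calc ∫ w, K w ≤ ∫ w, Real.exp (2 * k) * KS Δ w := by
          refine integral_mono_of_nonneg (Eventually.of_forall hK0) ((KS_integrable h0).const_mul _)
            (Eventually.of_forall fun w => ?_)
          beta_reduce
          rw [hKe]
          have h3 : Real.exp (-(p * w ^ 2)) ≤ 1 := by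
            rw [Real.exp_le_one_iff]
            have : 0 ≤ p * w ^ 2 := by positivity
            linarith
          have h4 := KS_nonneg h0 w
          have h5 : KS Δ w * Real.exp (-(p * w ^ 2)) ≤ KS Δ w := mul_le_of_le_one_right h4 h3
          exact mul_le_mul hexp h5 (by positivity) (Real.exp_pos _).le
      _ = Real.exp (2 * k) / 2 := by rw [integral_const_mul, KS_integral h0]; ring
      _ ≤ _ := by linarith [Real.exp_pos (2 * (k:ℝ))]
  set G : ℝ → ℝ := fun x => X ^ (p * Δ / 2) * zn (1 / 2 + Δ) x ^ (2 * k) +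
    X ^ (-(p * Δ / 2)) * zn (1 / 2 - Δ) x ^ (2 * k) with hG
  have hc1 : Continuous fun t => zn (1 / 2 + Δ) t ^ (2 * k) := (zn_cont (σ := 1 / 2 + Δ) (by linarith)).pow _
  have hc2 : Continuous fun t => zn (1 / 2 - Δ) t ^ (2 * k) := (zn_cont (σ := 1 / 2 - Δ) (by linarith)).pow _
  have hGc : Continuous G := (continuous_const.mul hc1).add (continuous_const.mul hc2)
  have hz1 : ∀ x, 0 ≤ zn (1 / 2 + Δ) x ^ (2 * k) := fun x => pow_nonneg (zn_nonneg _ _) _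
  have hz2 : ∀ x, 0 ≤ zn (1 / 2 - Δ) x ^ (2 * k) := fun x => pow_nonneg (zn_nonneg _ _) _
  have hXp : X ^ (p * Δ / 2) ≤ X ^ (2 * k) := by
    rw [← Real.rpow_natCast]
    refine Real.rpow_le_rpow_of_exponent_le hX1 ?_
    rw [← hp]
    nlinarith
  have hXn : X ^ (-(p * Δ / 2)) ≤ X ^ (2 * k) := by
    rw [← Real.rpow_natCast]
    refine Real.rpow_le_rpow_of_exponent_le hX1 ?_
    rw [← hp]
    nlinarith
  have hXp0 : 0 < X ^ (p * Δ / 2) := by positivity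
  have hXn0 : 0 < X ^ (-(p * Δ / 2)) := by positivity
  have hG0 : ∀ x, 0 ≤ G x := fun x => by
    have := hz1 x
    have := hz2 x
    simp only [hG]
    positivity
  have hGB1 : ∀ x, X ^ (p * Δ / 2) * zn (1 / 2 + Δ) x ^ (2 * k) ≤ (X ^ (2 * k) * 288 ^ k) * (1 + x ^ 2) ^ k := by
    intro x
    have := zn_pow_le (x := x) (σ := 1 / 2 + Δ) k (by linarith) (by linarith)
    calc X ^ (p * Δ / 2) * zn (1 / 2 + Δ) x ^ (2 * k) ≤ X ^ (2 * k) * (288 ^ k * (1 + x ^ 2) ^ k) :=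
          mul_le_mul hXp this (hz1 x) (by positivity)
      _ = _ := by ring
  have hGB2 : ∀ x, X ^ (-(p * Δ / 2)) * zn (1 / 2 - Δ) x ^ (2 * k) ≤ (X ^ (2 * k) * 288 ^ k) * (1 + x ^ 2) ^ k := by
    intro x
    have := zn_pow_le (x := x) (σ := 1 / 2 - Δ) k (by linarith) (by linarith)
    calc X ^ (-(p * Δ / 2)) * zn (1 / 2 - Δ) x ^ (2 * k) ≤ X ^ (2 * k) * (288 ^ k * (1 + x ^ 2) ^ k) :=
          mul_le_mul hXn this (hz2 x) (by positivity)
      _ = _ := by ring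
  have hGB : ∀ x, G x ≤ (2 * (X ^ (2 * k) * 288 ^ k)) * (1 + x ^ 2) ^ k := by
    intro x
    have h3 := hGB1 x
    have h4 := hGB2 x
    simp only [hG]
    linarith
  -- integrability of the products
  obtain ⟨i2, -⟩ := tail_k (K := K) (k := k) (m := m) (A := Real.exp (2 * k) * (Real.exp 1 * m.factorial) / Δ)
    (U := 1) (by positivity) le_rfl (by omega) hKc hK0 hKb
  have hconv : ∀ (g : ℝ → ℝ) (B : ℝ), Continuous g → (∀ x, 0 ≤ g x) → 0 ≤ B →
      (∀ x, g x ≤ B * (1 + x ^ 2) ^ k) → ∀ t, Integrable fun w => K w * g (t + w) := by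
    intro g B hg hg0 hB hgB t
    refine (i2.const_mul (B * (2 * (1 + t ^ 2)) ^ k)).mono' (by fun_prop) (Eventually.of_forall fun w => ?_)
    rw [Real.norm_of_nonneg (mul_nonneg (hK0 w) (hg0 _))]
    have h3 : 1 + (t + w) ^ 2 ≤ 2 * (1 + t ^ 2) * (1 + w ^ 2) := by
      nlinarith [sq_nonneg (t - w), sq_nonneg w, mul_nonneg (sq_nonneg t) (sq_nonneg w)]
    have h4 := pow_le_pow_left₀ (by positivity) h3 k
    calc K w * g (t + w) ≤ K w * (B * (2 * (1 + t ^ 2) * (1 + w ^ 2)) ^ k) :=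
          mul_le_mul_of_nonneg_left ((hgB _).trans (mul_le_mul_of_nonneg_left h4 hB)) (hK0 w)
      _ = _ := by rw [mul_pow]; ring
  have hpt : ∀ t ∈ Set.Icc 0 T, zn (1 / 2) t ^ (2 * k) ≤ ∫ w, K w * G (t + w) := by
    intro t _
    have h3 := refl_pt (t := t) (p := p) (by linarith) h0 h1 hX1
    have j1 := hconv (fun x => X ^ (p * Δ / 2) * zn (1 / 2 + Δ) x ^ (2 * k)) _ (continuous_const.mul hc1)
      (fun x => mul_nonneg hXp0.le (hz1 x)) (by positivity) hGB1 t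
    have j2 := hconv (fun x => X ^ (-(p * Δ / 2)) * zn (1 / 2 - Δ) x ^ (2 * k)) _ (continuous_const.mul hc2)
      (fun x => mul_nonneg hXn0.le (hz2 x)) (by positivity) hGB2 t
    have e0 : ∀ y : ℝ, y ^ p = y ^ (2 * k) := fun y => by rw [hp, Real.rpow_natCast]
    simp only [e0] at h3
    refine h3.trans (le_of_eq ?_)
    rw [← integral_add j1 j2]
    refine integral_congr_ae (Eventually.of_forall fun w => ?_)
    simp only [hG, hK]
    ring
  have hmain := win (K := K) (G := G) (H := fun t => zn (1 / 2) t ^ (2 * k)) (T := T)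
    (A := Real.exp (2 * k) * (Real.exp 1 * m.factorial) / Δ) (B := 2 * (X ^ (2 * k) * 288 ^ k))
    (κ := Real.exp (2 * k)) (k := k) (m := m) hT (by positivity) (by positivity) (by omega) hKc hK0 hKb hKm
    hGc hG0 hGB ((zn_cont (σ := 1 / 2) (by norm_num)).pow _) hpt
  refine hmain.trans ?_
  -- main term
  have hXk : X ^ (p * Δ / 2) = X ^ ((k : ℝ) * Δ) := by rw [hpk]; congr 1; ring
  have hb1 : ∫ t in (-T)..(2 * T), G t ≤ ∫ t in (-T)..(2 * T), X ^ ((k:ℝ) * Δ) *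
      ((1 + 2 ^ k) * zn (1 / 2 + Δ) t ^ (2 * k) + 1212 ^ (2 * k)) := by
    refine intervalIntegral.integral_mono_on (by linarith) (hGc.intervalIntegrable _ _)
      (Continuous.intervalIntegrable (continuous_const.mul ((continuous_const.mul hc1).add continuous_const)) _ _)
      fun x hx => ?_
    have hx2 : |x| ≤ X := by
      rw [abs_le]; constructor <;> linarith [hx.1, hx.2]
    have h3 := fe_k (τ := x) k h0.le h1 hX1 hx2
    rw [← hp] at h3
    have h4 : X ^ (-(p * Δ / 2)) * X ^ (p * Δ) = X ^ ((k:ℝ) * Δ) := by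
      rw [← Real.rpow_add hX0, ← hXk]; congr 1; ring
    have h5 := mul_le_mul_of_nonneg_left h3 hXn0.le
    rw [← mul_assoc, h4] at h5
    simp only [hG]
    rw [hXk]
    nlinarith
  have he := even_window hc1 hz1 (fun x => by rw [zn_neg]) hT0.le
  have hb2 : ∫ t in (-T)..(2 * T), X ^ ((k:ℝ) * Δ) *
      ((1 + 2 ^ k) * zn (1 / 2 + Δ) t ^ (2 * k) + 1212 ^ (2 * k)) ≤
      X ^ ((k:ℝ) * Δ) * (((1 + 2 ^ k) * 2) * (∫ t in (0:ℝ)..(2 * T), zn (1 / 2 + Δ) t ^ (2 * k)) +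
        3 * 1212 ^ (2 * k) * T) := by
    rw [intervalIntegral.integral_const_mul]
    refine mul_le_mul_of_nonneg_left ?_ (by positivity)
    have hi1 : IntervalIntegrable (fun t => (1 + 2 ^ k) * zn (1 / 2 + Δ) t ^ (2 * k)) volume (-T) (2 * T) :=
      (continuous_const.mul hc1).intervalIntegrable _ _
    rw [intervalIntegral.integral_add hi1 intervalIntegrable_const,
      intervalIntegral.integral_const_mul, intervalIntegral.integral_const, smul_eq_mul]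
    have h6 := mul_le_mul_of_nonneg_left he (show (0:ℝ) ≤ 1 + 2 ^ k by positivity)
    linarith
  set J : ℝ := ∫ t in (0:ℝ)..(2 * T), zn (1 / 2 + Δ) t ^ (2 * k) with hJ
  have hJ0 : 0 ≤ J := intervalIntegral.integral_nonneg (by linarith) fun x _ => hz1 x
  have hXk0 : 0 < X ^ ((k:ℝ) * Δ) := by positivity
  have hE0 : 0 < Real.exp (2 * (k:ℝ)) := Real.exp_pos _
  have main1 : Real.exp (2 * k) * (∫ t in (-T)..(2 * T), G t) ≤ C1 * X ^ ((k:ℝ) * Δ) * (J + T) := by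
    have h7 := mul_le_mul_of_nonneg_left (hb1.trans hb2) hE0.le
    refine h7.trans ?_
    have h8 : 0 ≤ Real.exp (2 * (k:ℝ)) * X ^ ((k:ℝ) * Δ) := by positivity
    have h9 : ((1 + 2 ^ k) * 2) * J + 3 * 1212 ^ (2 * k) * T ≤
        ((1 + 2 ^ k) * 2 + 3 * 1212 ^ (2 * k)) * (J + T) := by
      have a1 : (0:ℝ) ≤ (1 + 2 ^ k) * 2 * T := by positivity
      have a2 : (0:ℝ) ≤ 3 * 1212 ^ (2 * k) * J := by positivity
      nlinarith
    calc Real.exp (2 * (k:ℝ)) * (X ^ ((k:ℝ) * Δ) * (((1 + 2 ^ k) * 2) * J + 3 * 1212 ^ (2 * k) * T)) =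
          Real.exp (2 * (k:ℝ)) * X ^ ((k:ℝ) * Δ) * (((1 + 2 ^ k) * 2) * J + 3 * 1212 ^ (2 * k) * T) := by ring
      _ ≤ Real.exp (2 * (k:ℝ)) * X ^ ((k:ℝ) * Δ) * (((1 + 2 ^ k) * 2 + 3 * 1212 ^ (2 * k)) * (J + T)) :=
          mul_le_mul_of_nonneg_left h9 h8
      _ = _ := by rw [hC1]; ring
  have main2 : T * (2 * (X ^ (2 * k) * 288 ^ k) * (4 * T ^ 2) ^ k) *
      (Real.pi * (Real.exp (2 * k) * (Real.exp 1 * m.factorial) / Δ) * (T ^ (2 * (m - k - 1)))⁻¹) ≤ C2 / Δ := by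
    have e1 : 2 * (m - k - 1) = 1 + 2 * k + 2 * k + 3 := by omega
    have e2 : T * (2 * (X ^ (2 * k) * 288 ^ k) * (4 * T ^ 2) ^ k) *
      (Real.pi * (Real.exp (2 * k) * (Real.exp 1 * m.factorial) / Δ) * (T ^ (2 * (m - k - 1)))⁻¹) =
      C2 / Δ * (T ^ 3)⁻¹ := by
      rw [e1, pow_add, pow_add, pow_add, hX, hC2, mul_pow 2 T, mul_pow 4, ← pow_mul]
      field_simp
    rw [e2]
    refine mul_le_of_le_one_right (by positivity) ?_
    rw [inv_le_one_iff₀]; right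
    exact one_le_pow₀ hT
  have hfin : C1 * X ^ ((k:ℝ) * Δ) * (J + T) + C2 / Δ ≤
      (C1 + C2) * X ^ ((k:ℝ) * Δ) * (J + T) + (C1 + C2) / Δ := by
    have a1 : 0 ≤ C2 * X ^ ((k:ℝ) * Δ) * (J + T) := by positivity
    have a2 : C2 / Δ ≤ (C1 + C2) / Δ := div_le_div_of_nonneg_right (by linarith [show 0 ≤ C1 by positivity]) h0.le
    linarith
  linarith

end Pool.Agent.J4H26.EQ
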