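import Pool.Agent.W184.Half
import Pool.Agent.W184.Avg

set_option autoImplicit false

/-! Averages of convolution inequalities over an interval. -/

namespace Pool.Agent.J4H26.EQ

open MeasureTheory Filter Topology Complex Pool.Agent.W184

theorem avg_leG {K G H φ : ℝ → ℝ} {a b U D : ℝ} (hab : a ≤ b) (hU : 0 ≤ U)
    (hKc : Continuous K) (hK0 : ∀ w, 0 ≤ K w) (hKi : Integrable fun w => K w * φ w)
    (hKi0 : Integrable K)
    (hGc : Continuous G) (hG0 : ∀ x, 0 ≤ G x) (hGB : ∀ t ∈ Set.Icc a b, ∀ w, G (t + w) ≤ D * φ w)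
    (hHc : Continuous H) (hH : ∀ t ∈ Set.Icc a b, H t ≤ ∫ w, K w * G (t + w)) :
    ∫ t in a..b, H t ≤ (∫ w, K w) * (∫ t in (a - U)..(b + U), G t) +
      (b - a) * D * ∫ w in {w : ℝ | U < |w|}, K w * φ w := by
  have hcont : Continuous fun q : ℝ × ℝ => K q.2 * G (q.1 + q.2) := by fun_prop
  have hbd : ∀ t ∈ Set.Ioc a b, ∀ w, K w * G (t + w) ≤ D * (K w * φ w) := by
    intro t ht w
    calc K w * G (t + w) ≤ K w * (D * φ w) :=
          mul_le_mul_of_nonneg_left (hGB t (Set.Ioc_subset_Icc_self ht) w) (hK0 w)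
      _ = _ := by ring
  have hint : Integrable (fun q : ℝ × ℝ => K q.2 * G (q.1 + q.2))
      ((volume.restrict (Set.Ioc a b)).prod volume) := by
    have h1 : Integrable (fun q : ℝ × ℝ => (1:ℝ) * (D * (K q.2 * φ q.2)))
        ((volume.restrict (Set.Ioc a b)).prod volume) :=
      Integrable.mul_prod (integrable_const (1:ℝ)) (hKi.const_mul _)
    refine h1.mono' hcont.aestronglyMeasurable ?_
    have h2 : ((volume.restrict (Set.Ioc a b)).prod (volume : Measure ℝ)) =
        (volume.prod volume).restrict (Set.Ioc a b ×ˢ Set.univ) := by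
      rw [← Measure.prod_restrict, Measure.restrict_univ]
    rw [h2]
    refine (ae_restrict_mem (measurableSet_Ioc.prod MeasurableSet.univ)).mono fun q hq => ?_
    rw [Real.norm_of_nonneg (mul_nonneg (hK0 _) (hG0 _)), one_mul]
    exact hbd q.1 hq.1 q.2
  have s1 : ∫ t in a..b, H t ≤ ∫ t in Set.Ioc a b, ∫ w, K w * G (t + w) := by
    rw [intervalIntegral.integral_of_le hab]
    refine setIntegral_mono_on ?_ ?_ measurableSet_Ioc ?_
    · exact (hHc.integrableOn_Icc (a := a) (b := b)).mono_set Set.Ioc_subset_Icc_self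
    · exact hint.integral_prod_left
    · intro t ht
      exact hH t (Set.Ioc_subset_Icc_self ht)
  have s2 : ∫ t in Set.Ioc a b, ∫ w, K w * G (t + w) = ∫ w, ∫ t in Set.Ioc a b, K w * G (t + w) :=
    integral_integral_swap hint
  rw [s2] at s1
  refine s1.trans ?_
  have hms : MeasurableSet {w : ℝ | U < |w|} := measurableSet_lt measurable_const measurable_abs
  set E : ℝ := ∫ t in (a - U)..(b + U), G t with hE
  have hE0 : 0 ≤ E := intervalIntegral.integral_nonneg (by linarith) fun x _ => hG0 x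
  have hgi : Integrable fun w => K w * E + ({w : ℝ | U < |w|}).indicator
      (fun w => (b - a) * D * (K w * φ w)) w :=
    (hKi0.mul_const E).add ((hKi.const_mul _).indicator hms)
  have s3 : ∫ w, ∫ t in Set.Ioc a b, K w * G (t + w) ≤ ∫ w, (K w * E + ({w : ℝ | U < |w|}).indicator
      (fun w => (b - a) * D * (K w * φ w)) w) := by
    refine integral_mono_of_nonneg (Filter.Eventually.of_forall fun w => ?_) hgi
      (Filter.Eventually.of_forall fun w => ?_)
    · exact integral_nonneg fun t => mul_nonneg (hK0 w) (hG0 _)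
    · simp only
      have hcw : Continuous fun t => K w * G (t + w) := by fun_prop
      by_cases hw : U < |w|
      · rw [Set.indicator_of_mem (show w ∈ {w : ℝ | U < |w|} from hw)]
        have h4 : ∫ t in Set.Ioc a b, K w * G (t + w) ≤ ∫ t in Set.Ioc a b, D * (K w * φ w) := by
          refine setIntegral_mono_on ?_ ?_ measurableSet_Ioc fun t ht => hbd t ht w
          · exact (hcw.integrableOn_Icc (a := a) (b := b)).mono_set Set.Ioc_subset_Icc_self
          · exact integrableOn_const (by simp)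
        rw [setIntegral_const, Measure.real, Real.volume_Ioc,
          ENNReal.toReal_ofReal (by linarith), smul_eq_mul] at h4
        have h5 := mul_nonneg (hK0 w) hE0
        calc ∫ t in Set.Ioc a b, K w * G (t + w) ≤ (b - a) * (D * (K w * φ w)) := h4
          _ = (b - a) * D * (K w * φ w) := by ring
          _ ≤ _ := by linarith
      · rw [Set.indicator_of_notMem (show w ∉ {w : ℝ | U < |w|} from hw), add_zero, integral_const_mul]
        refine mul_le_mul_of_nonneg_left ?_ (hK0 w)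
        push Not at hw
        have hw' := abs_le.mp hw
        rw [← intervalIntegral.integral_of_le hab, intervalIntegral.integral_comp_add_right
          (fun x => G x), hE]
        refine intervalIntegral.integral_mono_interval (by linarith) (by linarith) (by linarith)
          (Filter.Eventually.of_forall fun x => hG0 x) (hGc.intervalIntegrable _ _)
  refine s3.trans (le_of_eq ?_)
  rw [integral_add (hKi0.mul_const E) ((hKi.const_mul _).indicator hms), integral_mul_const,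
    integral_indicator hms, integral_const_mul]


lemma tail_k {K : ℝ → ℝ} {A U : ℝ} {k m : ℕ} (hA : 0 ≤ A) (hU : 1 ≤ U) (hkm : k + 1 ≤ m)
    (hKc : Continuous K) (hK0 : ∀ w, 0 ≤ K w)
    (hK : ∀ w, K w ≤ A * ((1 + w ^ 2)⁻¹) ^ m) :
    (Integrable fun w => K w * (1 + w ^ 2) ^ k) ∧
    ∫ w in {w : ℝ | U < |w|}, K w * (1 + w ^ 2) ^ k ≤ Real.pi * A * (U ^ (2 * (m - k - 1)))⁻¹ := by
  have hi := integrable_inv_one_add_sq
  have h1 : ∀ w : ℝ, 0 < (1 + w ^ 2)⁻¹ ∧ (1 + w ^ 2)⁻¹ ≤ 1 := by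
    intro w
    have h0 : 0 < 1 + w ^ 2 := by positivity
    refine ⟨by positivity, ?_⟩
    rw [inv_le_one_iff₀]; right; nlinarith [sq_nonneg w]
  have hb : ∀ w : ℝ, K w * (1 + w ^ 2) ^ k ≤ A * ((1 + w ^ 2)⁻¹) ^ (m - k - 1) * (1 + w ^ 2)⁻¹ := by
    intro w
    have h0 : 0 < 1 + w ^ 2 := by positivity
    calc K w * (1 + w ^ 2) ^ k ≤ (A * ((1 + w ^ 2)⁻¹) ^ m) * (1 + w ^ 2) ^ k :=
          mul_le_mul_of_nonneg_right (hK w) (by positivity)
      _ = A * (((1 + w ^ 2)⁻¹) ^ (m - k - 1) * (1 + w ^ 2)⁻¹ * ((1 + w ^ 2)⁻¹ * (1 + w ^ 2)) ^ k) := by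
          obtain ⟨j, rfl⟩ : ∃ j, m = j + 1 + k := ⟨m - k - 1, by omega⟩
          rw [show j + 1 + k - k - 1 = j by omega, mul_pow]
          ring
      _ = _ := by rw [inv_mul_cancel₀ h0.ne', one_pow, mul_one]; ring
  have i2 : Integrable fun w => K w * (1 + w ^ 2) ^ k := by
    refine (hi.const_mul A).mono' (by fun_prop) (Filter.Eventually.of_forall fun w => ?_)
    have h2 : 0 ≤ (1 + w ^ 2) ^ k := by positivity
    rw [Real.norm_of_nonneg (mul_nonneg (hK0 w) h2)]
    refine (hb w).trans (mul_le_mul_of_nonneg_right ?_ (h1 w).1.le)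
    exact mul_le_of_le_one_right hA (pow_le_one₀ (h1 w).1.le (h1 w).2)
  refine ⟨i2, ?_⟩
  have hms : MeasurableSet {w : ℝ | U < |w|} := measurableSet_lt measurable_const measurable_abs
  have hU0 : 0 < U := by linarith
  have b1 : ∫ w in {w : ℝ | U < |w|}, K w * (1 + w ^ 2) ^ k ≤
      ∫ w in {w : ℝ | U < |w|}, A * (U ^ (2 * (m - k - 1)))⁻¹ * (1 + w ^ 2)⁻¹ := by
    refine setIntegral_mono_on i2.integrableOn (hi.const_mul _).integrableOn hms fun w hw => ?_
    have hw' : U < |w| := hw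
    refine (hb w).trans (mul_le_mul_of_nonneg_right (mul_le_mul_of_nonneg_left ?_ hA) (h1 w).1.le)
    have h4 : (1 + w ^ 2)⁻¹ ≤ (U ^ 2)⁻¹ := by
      refine inv_anti₀ (by positivity) ?_
      have : U ^ 2 ≤ |w| ^ 2 := pow_le_pow_left₀ hU0.le hw'.le 2
      rw [sq_abs] at this
      linarith
    calc ((1 + w ^ 2)⁻¹) ^ (m - k - 1) ≤ ((U ^ 2)⁻¹) ^ (m - k - 1) := pow_le_pow_left₀ (h1 w).1.le h4 _
      _ = _ := by rw [inv_pow, ← pow_mul]
  refine b1.trans ?_
  rw [integral_const_mul]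
  have b2 : ∫ w in {w : ℝ | U < |w|}, (1 + w ^ 2)⁻¹ ≤ Real.pi := by
    rw [← integral_univ_inv_one_add_sq]
    refine setIntegral_le_integral hi (Filter.Eventually.of_forall fun w => ?_)
    exact (h1 w).1.le
  calc A * (U ^ (2 * (m - k - 1)))⁻¹ * ∫ w in {w : ℝ | U < |w|}, (1 + w ^ 2)⁻¹ ≤
      A * (U ^ (2 * (m - k - 1)))⁻¹ * Real.pi := mul_le_mul_of_nonneg_left b2 (by positivity)
    _ = _ := by ring

/-- averaging a convolution inequality over `[0, T]` -/
theorem win {K G H : ℝ → ℝ} {T A B κ : ℝ} {k m : ℕ} (hT : 1 ≤ T) (hA : 0 ≤ A) (hB : 0 ≤ B)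
    (hkm : k + 1 ≤ m) (hKc : Continuous K) (hK0 : ∀ w, 0 ≤ K w)
    (hK : ∀ w, K w ≤ A * ((1 + w ^ 2)⁻¹) ^ m) (hKi : ∫ w, K w ≤ κ)
    (hGc : Continuous G) (hG0 : ∀ x, 0 ≤ G x) (hGB : ∀ x, G x ≤ B * (1 + x ^ 2) ^ k)
    (hHc : Continuous H) (hH : ∀ t ∈ Set.Icc 0 T, H t ≤ ∫ w, K w * G (t + w)) :
    ∫ t in (0:ℝ)..T, H t ≤ κ * (∫ t in (-T)..(2 * T), G t) +
      T * (B * (4 * T ^ 2) ^ k) * (Real.pi * A * (T ^ (2 * (m - k - 1)))⁻¹) := by
  have hT0 : 0 < T := by linarith
  obtain ⟨i2, i3⟩ := tail_k hA hT hkm hKc hK0 hK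
  have i1 : Integrable K := by
    refine i2.mono' (by fun_prop) (Filter.Eventually.of_forall fun w => ?_)
    rw [Real.norm_of_nonneg (hK0 w)]
    exact le_mul_of_one_le_right (hK0 w) (one_le_pow₀ (by nlinarith [sq_nonneg w]))
  have hGB' : ∀ t ∈ Set.Icc 0 T, ∀ w, G (t + w) ≤ (B * (4 * T ^ 2) ^ k) * (1 + w ^ 2) ^ k := by
    intro t ht w
    refine (hGB (t + w)).trans ?_
    have h2 : t ^ 2 ≤ T ^ 2 := pow_le_pow_left₀ ht.1 ht.2 2
    have h3 : 1 + (t + w) ^ 2 ≤ 4 * T ^ 2 * (1 + w ^ 2) := by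
      nlinarith [sq_nonneg (t - w), sq_nonneg w, mul_nonneg (sq_nonneg T) (sq_nonneg w), one_le_pow₀ hT (n := 2)]
    have h4 := pow_le_pow_left₀ (by positivity) h3 k
    calc B * (1 + (t + w) ^ 2) ^ k ≤ B * (4 * T ^ 2 * (1 + w ^ 2)) ^ k := mul_le_mul_of_nonneg_left h4 hB
      _ = _ := by rw [mul_pow]; ring
  have hmain := avg_leG (K := K) (G := G) (H := H) (φ := fun w => (1 + w ^ 2) ^ k)
    (a := 0) (b := T) (U := T) (D := B * (4 * T ^ 2) ^ k) hT0.le hT0.le hKc hK0 i2 i1 hGc hG0 hGB' hHc hH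
  rw [show (0:ℝ) - T = -T by ring, show T + T = 2 * T by ring, sub_zero] at hmain
  refine hmain.trans (add_le_add ?_ (mul_le_mul_of_nonneg_left i3 (by positivity)))
  exact mul_le_mul_of_nonneg_right hKi (intervalIntegral.integral_nonneg (by linarith) fun x _ => hG0 x)

end Pool.Agent.J4H26.EQ
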